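import Pool.Agent.H726R2.RD.GT
import Pool.Agent.H409R2.RD.EXB

/-! The Ahlswede-Winter bound for sums of independent random rank one operators. -/

set_option autoImplicit false

namespace Pool.Agent.T6.H1.Rt

open scoped InnerProductSpace
open Finset RC14

variable {V : Type*} [NormedAddCommGroup V] [InnerProductSpace ℂ V] [FiniteDimensional ℂ V]

/-- the rank one operator `v ↦ ⟪u, v⟫ u` -/
noncomputable def rk (u : V) : Module.End ℂ V :=
  ((innerSL ℂ u : V →L[ℂ] ℂ) : V →ₗ[ℂ] ℂ).smulRight u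

omit [FiniteDimensional ℂ V] in
lemma rk_apply (u v : V) : rk u v = ⟪u, v⟫_ℂ • u := rfl

lemma rk_symm (u : V) : (rk u).IsSymmetric := by
  intro v w
  rw [rk_apply, rk_apply, inner_smul_left, inner_smul_right, inner_conj_symm, mul_comm]

lemma rk_quad (u v : V) : (⟪rk u v, v⟫_ℂ).re = ‖⟪u, v⟫_ℂ‖ ^ 2 := by
  rw [rk_apply, inner_smul_left, ← Complex.normSq_eq_conj_mul_self, Complex.normSq_eq_norm_sq,
    Complex.ofReal_re]

omit [FiniteDimensional ℂ V] in
lemma sum_symm' {ι : Type*} (s : Finset ι) (A : ι → Module.End ℂ V)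
    (h : ∀ i ∈ s, (A i).IsSymmetric) : (∑ i ∈ s, A i).IsSymmetric := by
  intro v w
  rw [LinearMap.sum_apply, LinearMap.sum_apply, sum_inner, inner_sum]
  exact Finset.sum_congr rfl fun i hi => h i hi v w

/-- `e^A ≤ 1 + 2 A` for `0 ≤ A ≤ 1` -/
lemma ex_lin (A : Module.End ℂ V) (hA : A.IsSymmetric) (h0 : ∀ v, 0 ≤ (⟪A v, v⟫_ℂ).re)
    (h1 : ∀ v, (⟪A v, v⟫_ℂ).re ≤ ‖v‖ ^ 2) (v : V) :
    (⟪ex A v, v⟫_ℂ).re ≤ ‖v‖ ^ 2 + 2 * (⟪A v, v⟫_ℂ).re := by
  obtain ⟨n, b, μ, h2, h3⟩ := EXB.diag A hA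
  have hμ : ∀ i, (⟪A (b i), b i⟫_ℂ).re = μ i := by
    intro i
    rw [h2, inner_smul_left, inner_self_eq_norm_sq_to_K, b.norm_eq_one]
    simp
  have e1 := EXB.quad b (ex A) (fun i => Real.exp (μ i)) h3 v
  have e2 := EXB.quad b A μ h2 v
  have e3 : ‖v‖ ^ 2 = ∑ i, ‖⟪b i, v⟫_ℂ‖ ^ 2 := (b.sum_sq_norm_inner_right v).symm
  rw [e1, e2, e3, mul_sum, ← sum_add_distrib]
  apply sum_le_sum
  intro i _
  have h4 : 0 ≤ μ i := by rw [← hμ i]; exact h0 _
  have h5 : μ i ≤ 1 := by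
    rw [← hμ i]
    have := h1 (b i)
    rwa [b.norm_eq_one, one_pow] at this
  have h6 : Real.exp (μ i) ≤ 1 + 2 * μ i := by
    have h7 : Real.exp (μ i) ≤ 1 + μ i + μ i ^ 2 := by
      have := Real.abs_exp_sub_one_sub_id_le (x := μ i) (by rw [abs_of_nonneg h4]; exact h5)
      have := (abs_le.1 this).2
      linarith
    nlinarith
  have h8 : 0 ≤ ‖⟪b i, v⟫_ℂ‖ ^ 2 := by positivity
  nlinarith

omit [FiniteDimensional ℂ V] in
lemma rtr_sum {ι : Type*} (s : Finset ι) (A : ι → Module.End ℂ V) :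
    rtr (∑ i ∈ s, A i) = ∑ i ∈ s, rtr (A i) := by
  unfold rtr
  rw [map_sum, Complex.re_sum]

/-- the sum over the sample -/
noncomputable def SR {ι : Type*} (w : ι → V) {m : ℕ} (τ : Fin m → ι) : Module.End ℂ V :=
  ∑ j, rk (w (τ j))

lemma SR_symm {ι : Type*} (w : ι → V) {m : ℕ} (τ : Fin m → ι) : (SR w τ).IsSymmetric :=
  sum_symm' _ _ fun _ _ => rk_symm _

lemma SR_quad {ι : Type*} (w : ι → V) {m : ℕ} (τ : Fin m → ι) (v : V) :
    (⟪SR w τ v, v⟫_ℂ).re = ∑ j, ‖⟪w (τ j), v⟫_ℂ‖ ^ 2 := by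
  unfold SR
  rw [LinearMap.sum_apply, sum_inner, Complex.re_sum]
  exact sum_congr rfl fun j _ => rk_quad _ _

lemma step {ι : Type*} [Fintype ι] (w : ι → V) (α : ℝ) (hw : ∀ i, ‖w i‖ ≤ 1)
    (hA : ∀ v : V, ∑ i, ‖⟪w i, v⟫_ℂ‖ ^ 2 ≤ α * Fintype.card ι * ‖v‖ ^ 2)
    (S : Module.End ℂ V) (hS : S.IsSymmetric) :
    ∑ i, rtr (ex (S + rk (w i))) ≤ Fintype.card ι * (1 + 2 * α) * rtr (ex S) := by
  have h1 : ∑ i, rtr (ex (S + rk (w i))) ≤ ∑ i, rtr (ex S * ex (rk (w i))) :=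
    sum_le_sum fun i _ => GT S (rk (w i)) hS (rk_symm _)
  refine h1.trans ?_
  rw [← rtr_sum, ← mul_sum]
  set c : ℝ := Fintype.card ι * (1 + 2 * α) with hc
  set E : Module.End ℂ V := ∑ i, ex (rk (w i)) with hE
  have hEs : E.IsSymmetric := sum_symm' _ _ fun i _ => ex_symm _ (rk_symm _)
  have hpos1 : TRPaux.Pos (ex S) := ⟨ex_symm _ hS, ex_pos _ hS⟩
  have hpos2 : TRPaux.Pos ((c : ℂ) • (1 : Module.End ℂ V) - E) := by
    constructor
    · intro v u
      rw [LinearMap.sub_apply, LinearMap.sub_apply, inner_sub_left, inner_sub_right, hEs v u]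
      congr 1
      rw [LinearMap.smul_apply, LinearMap.smul_apply, inner_smul_left, inner_smul_right,
        Complex.conj_ofReal]
      rfl
    · intro v
      rw [LinearMap.sub_apply, inner_sub_left, Complex.sub_re]
      have e1 : (⟪((c : ℂ) • (1 : Module.End ℂ V)) v, v⟫_ℂ).re = c * ‖v‖ ^ 2 := by
        rw [LinearMap.smul_apply, inner_smul_left, Complex.conj_ofReal, Module.End.one_apply,
          inner_self_eq_norm_sq_to_K]
        have e0 : ((c : ℂ) * ((‖v‖ : ℝ) : ℂ) ^ 2) = ((c * ‖v‖ ^ 2 : ℝ) : ℂ) := by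
          push_cast
          ring
        exact (congrArg Complex.re e0).trans (Complex.ofReal_re _)
      have e2 : (⟪E v, v⟫_ℂ).re = ∑ i, (⟪ex (rk (w i)) v, v⟫_ℂ).re := by
        rw [hE, LinearMap.sum_apply, sum_inner, Complex.re_sum]
      rw [e1, e2]
      have e3 : ∑ i, (⟪ex (rk (w i)) v, v⟫_ℂ).re ≤ ∑ i, (‖v‖ ^ 2 + 2 * ‖⟪w i, v⟫_ℂ‖ ^ 2) := by
        apply sum_le_sum
        intro i _
        rw [← rk_quad]
        apply ex_lin _ (rk_symm _)
        · intro u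
          rw [rk_quad]
          positivity
        · intro u
          rw [rk_quad]
          have h2 := norm_inner_le_norm (𝕜 := ℂ) (w i) u
          have h3 : ‖w i‖ * ‖u‖ ≤ 1 * ‖u‖ := mul_le_mul_of_nonneg_right (hw i) (norm_nonneg _)
          have h4 : ‖⟪w i, u⟫_ℂ‖ ≤ ‖u‖ := by linarith
          exact pow_le_pow_left₀ (norm_nonneg _) h4 2
      rw [sum_add_distrib, sum_const, card_univ, nsmul_eq_mul, ← mul_sum] at e3
      have e4 := hA v
      have e5 : c * ‖v‖ ^ 2 = Fintype.card ι * ‖v‖ ^ 2 + 2 * (α * Fintype.card ι * ‖v‖ ^ 2) := by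
        rw [hc]; ring
      linarith
  have h2 := (norm_nonneg _).trans (TRPaux.tr_pos_mul hpos1 hpos2)
  have h3 : rtr (ex S * ((c : ℂ) • (1 : Module.End ℂ V) - E)) = c * rtr (ex S) - rtr (ex S * E) := by
    unfold rtr
    rw [mul_sub, mul_smul_comm, mul_one, map_sub, map_smul, Complex.sub_re, smul_eq_mul,
      Complex.re_ofReal_mul]
  rw [h3] at h2
  linarith

lemma total {ι : Type*} [Fintype ι] (w : ι → V) (α : ℝ) (hα : 0 ≤ α) (hw : ∀ i, ‖w i‖ ≤ 1)
    (hA : ∀ v : V, ∑ i, ‖⟪w i, v⟫_ℂ‖ ^ 2 ≤ α * Fintype.card ι * ‖v‖ ^ 2) (m : ℕ) :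
    ∑ τ : Fin m → ι, rtr (ex (SR w τ)) ≤
      (Fintype.card ι * (1 + 2 * α)) ^ m * Module.finrank ℂ V := by
  induction m with
  | zero =>
    have h1 : ∀ τ : Fin 0 → ι, rtr (ex (SR w τ)) = Module.finrank ℂ V := by
      intro τ
      unfold SR
      rw [univ_eq_empty, sum_empty, ex_zero]
      unfold rtr
      rw [LinearMap.trace_one]
      simp
    simp only [h1]
    simp
  | succ m ih =>
    rw [← (Fin.consEquiv (fun _ : Fin (m + 1) => ι)).sum_comp, Fintype.sum_prod_type, sum_comm]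
    have h1 : ∀ τ : Fin m → ι, ∑ i, rtr (ex (SR w ((Fin.consEquiv (fun _ : Fin (m + 1) => ι)) (i, τ)))) ≤
        Fintype.card ι * (1 + 2 * α) * rtr (ex (SR w τ)) := by
      intro τ
      refine le_trans (le_of_eq ?_) (step w α hw hA (SR w τ) (SR_symm w τ))
      apply sum_congr rfl
      intro i _
      congr 2
      unfold SR
      rw [Fin.sum_univ_succ, add_comm]
      rfl
    refine (sum_le_sum fun τ _ => h1 τ).trans ?_
    rw [← mul_sum]
    calc Fintype.card ι * (1 + 2 * α) * ∑ τ : Fin m → ι, rtr (ex (SR w τ))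
        ≤ Fintype.card ι * (1 + 2 * α) * ((Fintype.card ι * (1 + 2 * α)) ^ m * Module.finrank ℂ V) :=
          mul_le_mul_of_nonneg_left ih (by positivity)
      _ = _ := by ring

open Classical in
theorem chernoff1 {ι : Type*} [Fintype ι] (w : ι → V) (α : ℝ) (hα : 0 ≤ α) (hw : ∀ i, ‖w i‖ ≤ 1)
    (hA : ∀ v : V, ∑ i, ‖⟪w i, v⟫_ℂ‖ ^ 2 ≤ α * Fintype.card ι * ‖v‖ ^ 2) (m : ℕ) (s : ℝ) :
    ((univ.filter (fun τ : Fin m → ι => ∃ v : V,
      (2 * α * m + Real.log (Module.finrank ℂ V) + s) * ‖v‖ ^ 2 < ∑ j, ‖⟪w (τ j), v⟫_ℂ‖ ^ 2)).card : ℝ) ≤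
      Real.exp (-s) * (Fintype.card ι : ℝ) ^ m := by
  set d : ℝ := ((Module.finrank ℂ V : ℕ) : ℝ) with hd
  set B := univ.filter (fun τ : Fin m → ι => ∃ v : V,
      (2 * α * m + Real.log d + s) * ‖v‖ ^ 2 < ∑ j, ‖⟪w (τ j), v⟫_ℂ‖ ^ 2) with hB
  have hex : ∀ τ : Fin m → ι, 0 ≤ rtr (ex (SR w τ)) := by
    intro τ
    have h := TRPaux.tr_pos_mul (V := V) (A := ex (SR w τ)) (B := 1)
      ⟨ex_symm _ (SR_symm w τ), ex_pos _ (SR_symm w τ)⟩ ⟨fun v u => rfl, fun v => by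
        rw [Module.End.one_apply]
        exact inner_self_nonneg (𝕜 := ℂ)⟩
    rw [mul_one] at h
    exact (norm_nonneg _).trans h
  have h1 : ∀ τ ∈ B, Real.exp (2 * α * m + s) * d ≤ rtr (ex (SR w τ)) := by
    intro τ hτ
    obtain ⟨v, hv⟩ := (mem_filter.1 hτ).2
    have hv0 : v ≠ 0 := by
      rintro rfl
      simp at hv
    have hd0 : 0 < d := by
      rw [hd]
      have : Nontrivial V := ⟨v, 0, hv0⟩
      exact_mod_cast Module.finrank_pos (R := ℂ) (M := V)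
    have hn : 0 < ‖v‖ := norm_pos_iff.2 hv0
    set e : V := ((‖v‖⁻¹ : ℝ) : ℂ) • v with he
    have hen : ‖e‖ = 1 := by
      rw [he, norm_smul, Complex.norm_real, Real.norm_of_nonneg (by positivity)]
      field_simp
    have hq : ∑ j, ‖⟪w (τ j), e⟫_ℂ‖ ^ 2 = (‖v‖⁻¹) ^ 2 * ∑ j, ‖⟪w (τ j), v⟫_ℂ‖ ^ 2 := by
      rw [mul_sum]
      apply sum_congr rfl
      intro j _
      rw [he, inner_smul_right, norm_mul, Complex.norm_real, Real.norm_of_nonneg (by positivity),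
        mul_pow]
    have h2 : 2 * α * m + Real.log d + s ≤ ∑ j, ‖⟪w (τ j), e⟫_ℂ‖ ^ 2 := by
      rw [hq]
      calc 2 * α * m + Real.log d + s =
          (‖v‖⁻¹) ^ 2 * ((2 * α * m + Real.log d + s) * ‖v‖ ^ 2) := by field_simp
        _ ≤ _ := mul_le_mul_of_nonneg_left hv.le (by positivity)
    have h3 := ex_jensen (SR w τ) (SR_symm w τ) e hen
    have h4 := ex_le_tr (SR w τ) (SR_symm w τ) e hen
    rw [SR_quad] at h3
    refine le_trans ?_ (h3.trans h4)
    calc Real.exp (2 * α * m + s) * d = Real.exp (2 * α * m + Real.log d + s) := by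
          rw [show 2 * α * m + Real.log d + s = (2 * α * m + s) + Real.log d by ring, Real.exp_add _ (Real.log d),
            Real.exp_log hd0]
      _ ≤ _ := Real.exp_le_exp.2 h2
  have h2 : (B.card : ℝ) * (Real.exp (2 * α * m + s) * d) ≤
      (Fintype.card ι * (1 + 2 * α)) ^ m * d := by
    rw [← nsmul_eq_mul]
    refine (card_nsmul_le_sum _ _ _ h1).trans ?_
    refine (sum_le_sum_of_subset_of_nonneg (subset_univ B) fun τ _ _ => hex τ).trans ?_
    exact total w α hα hw hA m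
  rcases B.eq_empty_or_nonempty with h3 | ⟨τ, hτ⟩
  · rw [h3]
    simp only [card_empty, Nat.cast_zero]
    positivity
  · obtain ⟨v, hv⟩ := (mem_filter.1 hτ).2
    have hv0 : v ≠ 0 := by
      rintro rfl
      simp at hv
    have hd0 : 0 < d := by
      rw [hd]
      have : Nontrivial V := ⟨v, 0, hv0⟩
      exact_mod_cast Module.finrank_pos (R := ℂ) (M := V)
    have h4 : (B.card : ℝ) * Real.exp (2 * α * m + s) ≤ (Fintype.card ι * (1 + 2 * α)) ^ m := by
      apply le_of_mul_le_mul_right _ hd0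
      linarith
    have h5 : (1 + 2 * α) ^ m ≤ Real.exp (2 * α * m) := by
      calc (1 + 2 * α) ^ m ≤ (Real.exp (2 * α)) ^ m := by
            apply pow_le_pow_left₀ (by positivity)
            have := Real.add_one_le_exp (2 * α)
            linarith
        _ = Real.exp (2 * α * m) := by
            rw [← Real.exp_nat_mul]
            congr 1
            ring
    rw [mul_pow] at h4
    have h6 : (B.card : ℝ) * Real.exp (2 * α * m + s) ≤
        (Fintype.card ι : ℝ) ^ m * Real.exp (2 * α * m) :=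
      h4.trans (mul_le_mul_of_nonneg_left h5 (by positivity))
    have h7 : Real.exp (2 * α * m + s) = Real.exp (2 * α * m) * Real.exp s := Real.exp_add _ _
    rw [h7] at h6
    have h8 : 0 < Real.exp (2 * α * m) := Real.exp_pos _
    have h9 : (B.card : ℝ) * Real.exp s ≤ (Fintype.card ι : ℝ) ^ m := by
      apply le_of_mul_le_mul_right _ h8
      linarith
    rw [Real.exp_neg, inv_mul_eq_div, le_div_iff₀ (Real.exp_pos s)]
    exact h9

open Classical in
/-- **Sampling a frame at random points.** -/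
theorem chernoff {ι : Type*} [Fintype ι] (u : ι → V) (R a : ℝ) (hR : 0 < R) (ha : 0 ≤ a)
    (hu : ∀ i, ‖u i‖ ^ 2 ≤ R)
    (hA : ∀ v : V, ∑ i, ‖⟪u i, v⟫_ℂ‖ ^ 2 ≤ a * Fintype.card ι * ‖v‖ ^ 2) (m : ℕ) (s : ℝ) :
    ((univ.filter (fun τ : Fin m → ι => ∃ v : V,
      (2 * a * m + R * (Real.log (Module.finrank ℂ V) + s)) * ‖v‖ ^ 2 <
        ∑ j, ‖⟪u (τ j), v⟫_ℂ‖ ^ 2)).card : ℝ) ≤
      Real.exp (-s) * (Fintype.card ι : ℝ) ^ m := by
  set r : ℝ := Real.sqrt R with hr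
  have hr0 : 0 < r := Real.sqrt_pos.2 hR
  have hrr : r ^ 2 = R := Real.sq_sqrt hR.le
  set w : ι → V := fun i => ((r⁻¹ : ℝ) : ℂ) • u i with hw
  have hin : ∀ i (v : V), ‖⟪w i, v⟫_ℂ‖ ^ 2 = ‖⟪u i, v⟫_ℂ‖ ^ 2 / R := by
    intro i v
    rw [hw]
    dsimp only
    rw [inner_smul_left, Complex.conj_ofReal, norm_mul, Complex.norm_real,
      Real.norm_of_nonneg (by positivity), mul_pow, inv_pow, hrr]
    field_simp
  have h1 := chernoff1 w (a / R) (by positivity) (fun i => by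
    rw [hw]
    dsimp only
    rw [norm_smul, Complex.norm_real, Real.norm_of_nonneg (by positivity), inv_mul_eq_div,
      div_le_one hr0]
    exact abs_le_of_sq_le_sq' (by rw [hrr]; exact hu i) hr0.le |>.2) (fun v => by
    simp only [hin]
    rw [← sum_div, div_le_iff₀ hR]
    calc ∑ i, ‖⟪u i, v⟫_ℂ‖ ^ 2 ≤ a * Fintype.card ι * ‖v‖ ^ 2 := hA v
      _ = a / R * Fintype.card ι * ‖v‖ ^ 2 * R := by field_simp) m s
  refine le_trans (le_of_eq ?_) h1
  congr 2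
  apply filter_congr
  intro τ _
  apply exists_congr
  intro v
  simp only [hin]
  rw [← sum_div, lt_div_iff₀ hR]
  have e : (2 * (a / R) * m + Real.log (Module.finrank ℂ V) + s) * ‖v‖ ^ 2 * R =
      (2 * a * m + R * (Real.log (Module.finrank ℂ V) + s)) * ‖v‖ ^ 2 := by
    field_simp
    ring
  rw [e]

end Pool.Agent.T6.H1.Rt
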