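import Mathlib

/-! Counting tuples: independent coordinates. -/

set_option autoImplicit false

namespace Pool.Agent.T6.H1.Rt

open Finset

variable {κ ι : Type*} [Fintype κ] [DecidableEq κ] [Fintype ι]

/-- exchanging one coordinate with a fresh one -/
def exch (j : κ) : ((κ → ι) × ι) ≃ ((κ → ι) × ι) where
  toFun := fun p => (Function.update p.1 j p.2, p.1 j)
  invFun := fun p => (Function.update p.1 j p.2, p.1 j)
  left_inv := by
    rintro ⟨τ, x⟩
    simp only [Function.update_idem, Function.update_eq_self, Function.update_self]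
  right_inv := by
    rintro ⟨τ, x⟩
    simp only [Function.update_idem, Function.update_eq_self, Function.update_self]

/-- resampling one coordinate -/
lemma resample (j : κ) (G : (κ → ι) → ℝ) :
    ∑ τ : κ → ι, ∑ x : ι, G (Function.update τ j x) = Fintype.card ι * ∑ τ : κ → ι, G τ := by
  classical
  have h1 : ∑ τ : κ → ι, ∑ x : ι, G (Function.update τ j x) =
      ∑ p : (κ → ι) × ι, G (Function.update p.1 j p.2) := by
    rw [Fintype.sum_prod_type]
  have h2 : ∑ p : (κ → ι) × ι, G (Function.update p.1 j p.2) = ∑ p : (κ → ι) × ι, G p.1 :=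
    Fintype.sum_equiv (exch j) _ _ (fun p => rfl)
  rw [h1, h2, Fintype.sum_prod_type]
  simp only [sum_const, card_univ, nsmul_eq_mul]
  rw [← mul_sum]

open Classical in
/-- independent bad events at the coordinates in `J` -/
theorem indep (F : (κ → ι) → ι → Prop) (p : ℝ) (hp : 0 ≤ p)
    (hF : ∀ τ, (((univ : Finset ι).filter (fun x => F τ x)).card : ℝ) ≤ p * Fintype.card ι)
    (J : Finset κ) (hJ : ∀ j ∈ J, ∀ (τ : κ → ι) (x : ι), F (Function.update τ j x) = F τ) :
    ((univ.filter (fun τ : κ → ι => ∀ j ∈ J, F τ (τ j))).card : ℝ) ≤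
      p ^ J.card * (Fintype.card ι : ℝ) ^ Fintype.card κ := by
  induction J using Finset.induction_on with
  | empty =>
    simp
  | insert a J ha ih =>
    have ih' := ih (fun j hj => hJ j (mem_insert_of_mem hj))
    rcases isEmpty_or_nonempty ι with hι | hι
    · have : IsEmpty (κ → ι) := by
        have : Nonempty κ := ⟨a⟩
        infer_instance
      have h0 : (univ.filter (fun τ : κ → ι => ∀ j ∈ insert a J, F τ (τ j))) = ∅ := by
        apply eq_empty_of_forall_notMem
        intro τ
        exact (IsEmpty.false τ).elim
      rw [h0, card_empty, Nat.cast_zero]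
      positivity
    have hT : (0 : ℝ) < Fintype.card ι := by exact_mod_cast Fintype.card_pos
    -- the indicator functions
    set g : (κ → ι) → ℝ := fun τ => if ∀ j ∈ J, F τ (τ j) then 1 else 0 with hg
    set G : (κ → ι) → ℝ := fun τ => g τ * (if F τ (τ a) then 1 else 0) with hG
    have hgup : ∀ (τ : κ → ι) (x : ι), g (Function.update τ a x) = g τ := by
      intro τ x
      rw [hg]
      dsimp only
      have : (∀ j ∈ J, F (Function.update τ a x) (Function.update τ a x j)) ↔ ∀ j ∈ J, F τ (τ j) := by
        apply forall_congr'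
        intro j
        apply imp_congr_right
        intro hj
        have hne : j ≠ a := fun h => ha (h ▸ hj)
        rw [hJ a (mem_insert_self a J), Function.update_of_ne hne]
      simp only [this]
    have e1 : ((univ.filter (fun τ : κ → ι => ∀ j ∈ insert a J, F τ (τ j))).card : ℝ) = ∑ τ, G τ := by
      rw [card_filter]
      push_cast
      apply sum_congr rfl
      intro τ _
      rw [hG, hg]
      dsimp only
      by_cases h1 : F τ (τ a)
      · by_cases h2 : ∀ j ∈ J, F τ (τ j)
        · rw [if_pos, if_pos h2, if_pos h1, mul_one]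
          intro j hj
          rcases mem_insert.1 hj with rfl | h
          · exact h1
          · exact h2 j h
        · rw [if_neg, if_neg h2, zero_mul]
          intro h3
          exact h2 fun j hj => h3 j (mem_insert_of_mem hj)
      · rw [if_neg, if_neg h1, mul_zero]
        intro h3
        exact h1 (h3 a (mem_insert_self a J))
    have e2 : ((univ.filter (fun τ : κ → ι => ∀ j ∈ J, F τ (τ j))).card : ℝ) = ∑ τ, g τ := by
      rw [card_filter]
      push_cast
      rfl
    have h1 := resample a G
    have h2 : ∀ τ : κ → ι, ∑ x : ι, G (Function.update τ a x) ≤ g τ * (p * Fintype.card ι) := by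
      intro τ
      have h3 : ∀ x : ι, G (Function.update τ a x) = g τ * (if F τ x then 1 else 0) := by
        intro x
        rw [hG]
        dsimp only
        rw [hgup, hJ a (mem_insert_self a J), Function.update_self]
      simp only [h3]
      rw [← mul_sum]
      apply mul_le_mul_of_nonneg_left _ (by rw [hg]; dsimp only; split_ifs <;> norm_num)
      refine le_trans (le_of_eq ?_) (hF τ)
      rw [card_filter]
      push_cast
      rfl
    have h3 : Fintype.card ι * ∑ τ, G τ ≤ (∑ τ, g τ) * (p * Fintype.card ι) := by
      rw [← h1, sum_mul]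
      exact sum_le_sum fun τ _ => h2 τ
    have h4 : ∑ τ, G τ ≤ p * ∑ τ, g τ := by
      apply le_of_mul_le_mul_left _ hT
      linarith
    rw [e1, card_insert_of_notMem ha]
    rw [e2] at ih'
    calc ∑ τ, G τ ≤ p * ∑ τ, g τ := h4
      _ ≤ p * (p ^ J.card * (Fintype.card ι : ℝ) ^ Fintype.card κ) :=
          mul_le_mul_of_nonneg_left ih' hp
      _ = _ := by rw [pow_succ]; ring

end Pool.Agent.T6.H1.Rt
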