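import Mathlib

/-! The deterministic part: a bootstrapping inequality for families of vectors which are almost
orthogonal to all the combinations of few of the others. -/

set_option autoImplicit false

namespace Pool.Agent.T6.H1.Rt

open Finset
open scoped InnerProductSpace

lemma maxcut {ι : Type*} [DecidableEq ι] (h : ι → ι → ℝ) (hs : ∀ i j, h i j = h j i)
    (W : Finset ι) : ∃ U ⊆ W, ∑ j ∈ W, ∑ l ∈ W.erase j, h j l ≤ 4 * ∑ j ∈ U, ∑ l ∈ W \ U, h j l := by
  induction W using Finset.induction_on with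
  | empty => exact ⟨∅, subset_rfl, by simp⟩
  | insert x W hx ih =>
    obtain ⟨U, hU, h1⟩ := ih
    have hxU : x ∉ U := fun h => hx (hU h)
    have e1 : ∑ j ∈ insert x W, ∑ l ∈ (insert x W).erase j, h j l =
        2 * ∑ l ∈ W, h x l + ∑ j ∈ W, ∑ l ∈ W.erase j, h j l := by
      rw [sum_insert hx, erase_insert hx]
      have : ∀ j ∈ W, ∑ l ∈ (insert x W).erase j, h j l = h x j + ∑ l ∈ W.erase j, h j l := by
        intro j hj
        have hne : x ≠ j := fun h => hx (h ▸ hj)
        rw [erase_insert_of_ne hne, sum_insert (fun h => hx (mem_of_mem_erase h)), hs j x]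
      rw [sum_congr rfl this, sum_add_distrib]
      ring
    have e2 : ∑ l ∈ W, h x l = ∑ l ∈ U, h x l + ∑ l ∈ W \ U, h x l := by
      rw [add_comm]
      exact (sum_sdiff hU).symm
    rcases le_total (∑ l ∈ U, h x l) (∑ l ∈ W \ U, h x l) with h2 | h2
    · refine ⟨insert x U, insert_subset_insert x hU, ?_⟩
      have e3 : insert x W \ insert x U = W \ U := by
        ext l
        simp only [mem_sdiff, mem_insert]
        constructor
        · rintro ⟨h3 | h3, h4⟩
          · exact absurd (Or.inl h3) h4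
          · exact ⟨h3, fun h5 => h4 (Or.inr h5)⟩
        · rintro ⟨h3, h4⟩
          refine ⟨Or.inr h3, ?_⟩
          rintro (h5 | h5)
          · exact hx (h5 ▸ h3)
          · exact h4 h5
      rw [e1, e3, sum_insert hxU]
      linarith
    · refine ⟨U, hU.trans (subset_insert x W), ?_⟩
      have e3 : insert x W \ U = insert x (W \ U) := by
        ext l
        simp only [mem_sdiff, mem_insert]
        constructor
        · rintro ⟨h3 | h3, h4⟩
          · exact Or.inl h3
          · exact Or.inr ⟨h3, h4⟩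
        · rintro (h3 | ⟨h3, h4⟩)
          · exact ⟨Or.inl h3, h3 ▸ hxU⟩
          · exact ⟨Or.inr h3, h4⟩
      have hx2 : x ∉ W \ U := fun h3 => hx (mem_sdiff.1 h3).1
      rw [e1, e3]
      have e4 : ∑ j ∈ U, ∑ l ∈ insert x (W \ U), h j l =
          ∑ l ∈ U, h x l + ∑ j ∈ U, ∑ l ∈ W \ U, h j l := by
        rw [← sum_add_distrib]
        apply sum_congr rfl
        intro j _
        rw [sum_insert hx2, hs j x]
      rw [e4]
      linarith

variable {V : Type*} [NormedAddCommGroup V] [InnerProductSpace ℂ V]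

/-- the combination of the vectors over `W` -/
noncomputable def yy {ι : Type*} (v : ι → V) (c : ι → ℂ) (W : Finset ι) : V := ∑ l ∈ W, c l • v l

open Classical in
theorem boot {ι : Type*} [Fintype ι] [DecidableEq ι] (v : ι → V) (c : ι → ℂ) (hc : ∀ i, ‖c i‖ ≤ 1)
    (R L : ℝ) (r : ℕ) (hR : 0 ≤ R) (hL : 0 ≤ L) (hv : ∀ i, ‖v i‖ ^ 2 ≤ R)
    (hgood : ∀ W : Finset ι, W.Nonempty → W.card ≤ r →
      64 * ((univ \ W).filter (fun j => L * ‖yy v c W‖ < ‖⟪v j, yy v c W⟫_ℂ‖)).card ≤ W.card) :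
    ∀ W : Finset ι, W.card ≤ r →
      ‖yy v c W‖ ^ 2 ≤ 4 * (Real.sqrt R + 4 * Real.sqrt r * L) ^ 2 * W.card := by
  set g : ℝ := Real.sqrt R + 4 * Real.sqrt r * L with hg
  have hg0 : 0 ≤ g := by rw [hg]; positivity
  intro W
  induction W using Finset.strongInduction with
  | H W ih =>
    intro hWr
    set h : ι → ι → ℝ := fun j l => (⟪c j • v j, c l • v l⟫_ℂ).re with hh
    have hsym : ∀ i j, h i j = h j i := by
      intro i j
      rw [hh]
      dsimp only
      rw [← inner_conj_symm, Complex.conj_re]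
    obtain ⟨U, hU, h1⟩ := maxcut h hsym W
    have e1 : ‖yy v c W‖ ^ 2 = ∑ j ∈ W, h j j + ∑ j ∈ W, ∑ l ∈ W.erase j, h j l := by
      have h2 : ‖yy v c W‖ ^ 2 = (⟪yy v c W, yy v c W⟫_ℂ).re := by
        rw [inner_self_eq_norm_sq_to_K]
        norm_cast
      rw [h2]
      unfold yy
      rw [sum_inner, Complex.re_sum, ← sum_add_distrib]
      apply sum_congr rfl
      intro j hj
      rw [inner_sum, Complex.re_sum, ← add_sum_erase _ _ hj]
    have e2 : ∑ j ∈ W, h j j ≤ W.card * R := by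
      rw [← nsmul_eq_mul]
      apply sum_le_card_nsmul
      intro j _
      rw [hh]
      dsimp only
      rw [inner_self_eq_norm_sq_to_K, norm_smul]
      have h3 : (‖c j‖ * ‖v j‖) ^ 2 ≤ R := by
        have h4 : ‖c j‖ * ‖v j‖ ≤ 1 * ‖v j‖ := mul_le_mul_of_nonneg_right (hc j) (norm_nonneg _)
        rw [one_mul] at h4
        exact (pow_le_pow_left₀ (by positivity) h4 2).trans (hv j)
      calc ((((‖c j‖ * ‖v j‖ : ℝ) : ℂ)) ^ 2).re = (‖c j‖ * ‖v j‖) ^ 2 := by norm_cast
        _ ≤ R := h3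
    have hw : (0 : ℝ) ≤ W.card := Nat.cast_nonneg _
    have hwr : (W.card : ℝ) ≤ r := by exact_mod_cast hWr
    -- the bound for the cut
    have e3 : ∑ j ∈ U, ∑ l ∈ W \ U, h j l ≤
        W.card * L * (2 * g * Real.sqrt W.card) + g ^ 2 / 2 * W.card := by
      have hcut : ∑ j ∈ U, ∑ l ∈ W \ U, h j l = ∑ j ∈ U, (⟪c j • v j, yy v c (W \ U)⟫_ℂ).re := by
        apply sum_congr rfl
        intro j _
        unfold yy
        rw [inner_sum, Complex.re_sum]
      have hRHS : 0 ≤ W.card * L * (2 * g * Real.sqrt W.card) + g ^ 2 / 2 * W.card := by positivity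
      rcases (W \ U).eq_empty_or_nonempty with h2 | h2
      · rw [hcut, h2]
        have : yy v c (∅ : Finset ι) = 0 := by unfold yy; simp
        rw [this]
        simpa using hRHS
      rcases U.eq_empty_or_nonempty with h3 | h3
      · rw [h3]
        simpa using hRHS
      have hpr1 : W \ U ⊂ W := by
        refine ⟨sdiff_subset, fun h4 => ?_⟩
        obtain ⟨x, hx⟩ := h3
        exact (mem_sdiff.1 (h4 (hU hx))).2 hx
      have hpr2 : U ⊂ W := by
        refine ⟨hU, fun h4 => ?_⟩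
        obtain ⟨x, hx⟩ := h2
        exact (mem_sdiff.1 hx).2 (h4 (mem_sdiff.1 hx).1)
      set W2 := W \ U with hW2
      set y := yy v c W2 with hy
      set E := (univ \ W2).filter (fun j => L * ‖y‖ < ‖⟪v j, y⟫_ℂ‖) with hE
      have hW2c : W2.card ≤ W.card := card_le_card sdiff_subset
      have hEc : 64 * E.card ≤ W2.card := hgood W2 h2 (hW2c.trans hWr)
      have hyn : ‖y‖ ≤ 2 * g * Real.sqrt W.card := by
        have h4 := ih W2 hpr1 (hW2c.trans hWr)
        have h5 : ‖y‖ ^ 2 ≤ (2 * g * Real.sqrt W.card) ^ 2 := by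
          rw [mul_pow, mul_pow, Real.sq_sqrt hw]
          have h6 : (W2.card : ℝ) ≤ W.card := by exact_mod_cast hW2c
          have h7 : 0 ≤ 4 * g ^ 2 := by positivity
          nlinarith
        exact abs_le_of_sq_le_sq' h5 (by positivity) |>.2
      have hsplit : ∑ j ∈ U, (⟪c j • v j, y⟫_ℂ).re =
          ∑ j ∈ U \ E, (⟪c j • v j, y⟫_ℂ).re + ∑ j ∈ U ∩ E, (⟪c j • v j, y⟫_ℂ).re := by
        rw [← sum_union (disjoint_sdiff_inter U E), sdiff_union_inter]
      have hA : ∑ j ∈ U \ E, (⟪c j • v j, y⟫_ℂ).re ≤ W.card * L * (2 * g * Real.sqrt W.card) := by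
        have h4 : ∀ j ∈ U \ E, (⟪c j • v j, y⟫_ℂ).re ≤ L * (2 * g * Real.sqrt W.card) := by
          intro j hj
          rw [mem_sdiff] at hj
          have h5 : ‖⟪v j, y⟫_ℂ‖ ≤ L * ‖y‖ := by
            by_contra h6
            apply hj.2
            rw [hE, mem_filter, mem_sdiff]
            refine ⟨⟨mem_univ _, fun h7 => ?_⟩, not_le.1 h6⟩
            rw [hW2, mem_sdiff] at h7
            exact h7.2 hj.1
          refine (Complex.re_le_norm _).trans ?_
          rw [inner_smul_left, norm_mul, RCLike.norm_conj]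
          calc ‖c j‖ * ‖⟪v j, y⟫_ℂ‖ ≤ 1 * (L * ‖y‖) :=
                mul_le_mul (hc j) h5 (norm_nonneg _) zero_le_one
            _ = L * ‖y‖ := one_mul _
            _ ≤ _ := mul_le_mul_of_nonneg_left hyn hL
        refine (sum_le_card_nsmul _ _ _ h4).trans ?_
        rw [nsmul_eq_mul]
        have h5 : ((U \ E).card : ℝ) ≤ W.card := by
          exact_mod_cast card_le_card (sdiff_subset.trans hU)
        calc ((U \ E).card : ℝ) * (L * (2 * g * Real.sqrt W.card))
            ≤ W.card * (L * (2 * g * Real.sqrt W.card)) :=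
              mul_le_mul_of_nonneg_right h5 (by positivity)
          _ = _ := by ring
      have hB : ∑ j ∈ U ∩ E, (⟪c j • v j, y⟫_ℂ).re ≤ g ^ 2 / 2 * W.card := by
        have h4 : ∑ j ∈ U ∩ E, (⟪c j • v j, y⟫_ℂ).re = (⟪yy v c (U ∩ E), y⟫_ℂ).re := by
          unfold yy
          rw [sum_inner, Complex.re_sum]
        rw [h4]
        have hpr3 : U ∩ E ⊂ W := lt_of_le_of_lt inter_subset_left hpr2
        have h5 := ih (U ∩ E) hpr3 ((card_le_card hpr3.1).trans hWr)
        have h6 : 64 * ((U ∩ E).card : ℝ) ≤ W.card := by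
          have : 64 * (U ∩ E).card ≤ W.card :=
            (Nat.mul_le_mul_left 64 (card_le_card inter_subset_right)).trans (hEc.trans hW2c)
          exact_mod_cast this
        have h7 : ‖yy v c (U ∩ E)‖ ≤ g / 4 * Real.sqrt W.card := by
          have h8 : ‖yy v c (U ∩ E)‖ ^ 2 ≤ (g / 4 * Real.sqrt W.card) ^ 2 := by
            rw [mul_pow, Real.sq_sqrt hw]
            have h9 : 0 ≤ g ^ 2 := by positivity
            nlinarith
          exact abs_le_of_sq_le_sq' h8 (by positivity) |>.2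
        refine (Complex.re_le_norm _).trans ((norm_inner_le_norm _ _).trans ?_)
        calc ‖yy v c (U ∩ E)‖ * ‖y‖ ≤ (g / 4 * Real.sqrt W.card) * (2 * g * Real.sqrt W.card) :=
              mul_le_mul h7 hyn (norm_nonneg _) (by positivity)
          _ = g ^ 2 / 2 * (Real.sqrt W.card * Real.sqrt W.card) := by ring
          _ = g ^ 2 / 2 * W.card := by rw [Real.mul_self_sqrt hw]
      rw [hcut, hsplit]
      linarith
    rw [e1]
    -- the final inequality
    have hsq : Real.sqrt W.card ≤ Real.sqrt r := Real.sqrt_le_sqrt hwr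
    have hgR : Real.sqrt R ≤ g := by
      rw [hg]
      have : 0 ≤ 4 * Real.sqrt r * L := by positivity
      linarith
    have hRR : R = Real.sqrt R * Real.sqrt R := (Real.mul_self_sqrt hR).symm
    have f1 : W.card * L * (2 * g * Real.sqrt W.card) ≤ W.card * (2 * g * (L * Real.sqrt r)) := by
      calc W.card * L * (2 * g * Real.sqrt W.card) = W.card * (2 * g * (L * Real.sqrt W.card)) := by ring
        _ ≤ _ := by
          apply mul_le_mul_of_nonneg_left _ hw
          apply mul_le_mul_of_nonneg_left _ (by positivity)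
          exact mul_le_mul_of_nonneg_left hsq hL
    have f2 : W.card * R + 4 * (W.card * (2 * g * (L * Real.sqrt r)) + g ^ 2 / 2 * W.card) ≤
        4 * g ^ 2 * W.card := by
      have f3 : R + 8 * g * (L * Real.sqrt r) ≤ 2 * g ^ 2 := by
        have f4 : g ^ 2 = g * Real.sqrt R + g * (4 * Real.sqrt r * L) := by
          rw [sq]
          nth_rewrite 2 [hg]
          ring
        have f5 : Real.sqrt R * Real.sqrt R ≤ g * Real.sqrt R :=
          mul_le_mul_of_nonneg_right hgR (Real.sqrt_nonneg _)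
        have f6 : 0 ≤ g * Real.sqrt R := by positivity
        rw [f4]
        nlinarith
      nlinarith
    linarith

lemma phase (z : ℂ) : ∃ k : Fin 4, ‖z‖ / 2 ≤ ((starRingEnd ℂ) (Complex.I ^ (k : ℕ)) * z).re := by
  have h1 : ‖z‖ ≤ |z.re| + |z.im| := Complex.norm_le_abs_re_add_abs_im z
  rcases le_total |z.im| |z.re| with h | h
  · rcases le_total 0 z.re with h2 | h2
    · refine ⟨0, ?_⟩
      rw [abs_of_nonneg h2] at h h1
      simp
      linarith
    · refine ⟨2, ?_⟩
      rw [abs_of_nonpos h2] at h h1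
      simp
      linarith
  · rcases le_total 0 z.im with h2 | h2
    · refine ⟨1, ?_⟩
      rw [abs_of_nonneg h2] at h h1
      simp
      linarith
    · refine ⟨3, ?_⟩
      rw [abs_of_nonpos h2] at h h1
      have : Complex.I ^ 3 = -Complex.I := by
        rw [pow_succ, Complex.I_sq]
        ring
      show ‖z‖ / 2 ≤ ((starRingEnd ℂ) (Complex.I ^ 3) * z).re
      rw [this]
      simp
      linarith

/-- large values: `|J| V^2 ≤ 4 Λ ‖b‖^2` -/
theorem large {ι : Type*} (v : ι → V) (Λ : ℝ) (hΛ : 0 ≤ Λ) (r : ℕ)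
    (h : ∀ c : ι → ℂ, (∀ i, ∃ k : Fin 4, c i = Complex.I ^ (k : ℕ)) → ∀ W : Finset ι, W.card ≤ r →
      ‖yy v c W‖ ^ 2 ≤ Λ * W.card) (b : V) (X : ℝ) (hX : 0 ≤ X) (J : Finset ι) (hJ : J.card ≤ r)
    (hlarge : ∀ j ∈ J, X ≤ ‖⟪v j, b⟫_ℂ‖) : (J.card : ℝ) * X ^ 2 ≤ 4 * Λ * ‖b‖ ^ 2 := by
  choose k hk using fun j => phase (⟪v j, b⟫_ℂ)
  have h1 := h (fun j => Complex.I ^ (k j : ℕ)) (fun j => ⟨k j, rfl⟩) J hJ
  set y := yy v (fun j => Complex.I ^ (k j : ℕ)) J with hy
  have h2 : (J.card : ℝ) * (X / 2) ≤ (⟪y, b⟫_ℂ).re := by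
    rw [hy]
    unfold yy
    rw [sum_inner, Complex.re_sum, ← nsmul_eq_mul]
    apply card_nsmul_le_sum
    intro j hj
    rw [inner_smul_left]
    have := hk j
    have := hlarge j hj
    linarith
  have h3 : (⟪y, b⟫_ℂ).re ≤ ‖y‖ * ‖b‖ := (Complex.re_le_norm _).trans (norm_inner_le_norm _ _)
  have hJ0 : (0 : ℝ) ≤ J.card := Nat.cast_nonneg _
  have h4 : ((J.card : ℝ) * (X / 2)) ^ 2 ≤ (‖y‖ * ‖b‖) ^ 2 :=
    pow_le_pow_left₀ (by positivity) (h2.trans h3) 2
  rw [mul_pow ‖y‖] at h4
  have h5 : ‖y‖ ^ 2 * ‖b‖ ^ 2 ≤ Λ * J.card * ‖b‖ ^ 2 := mul_le_mul_of_nonneg_right h1 (by positivity)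
  rcases hJ0.eq_or_lt with h6 | h6
  · rw [← h6, zero_mul]
    positivity
  · have h7 : (J.card : ℝ) * ((J.card : ℝ) * X ^ 2) ≤ J.card * (4 * Λ * ‖b‖ ^ 2) := by nlinarith
    exact le_of_mul_le_mul_left h7 h6

/-- the sum of the squares over the large values -/
theorem sum_sq_le {ι : Type*} (f : ι → ℝ) (hf : ∀ i, 0 ≤ f i) (K : ℝ) (r : ℕ) :
    ∀ J : Finset ι, J.card ≤ r → (∀ (U : Finset ι) (X : ℝ), U ⊆ J → 0 ≤ X → (∀ j ∈ U, X ≤ f j) →
      (U.card : ℝ) * X ^ 2 ≤ K) → ∑ j ∈ J, f j ^ 2 ≤ K * ∑ i ∈ Icc 1 J.card, (1 : ℝ) / i := by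
  classical
  intro J
  induction J using Finset.strongInduction with
  | H J ih =>
    intro hJr hJ
    rcases J.eq_empty_or_nonempty with h0 | h0
    · rw [h0]
      simp
    · obtain ⟨x, hx, hmin⟩ := exists_min_image J f h0
      have h1 := hJ J (f x) subset_rfl (hf x) hmin
      have h2 := ih (J.erase x) (erase_ssubset hx)
        ((card_le_card (erase_subset x J)).trans hJr)
        (fun U X hU hX hUX => hJ U X (hU.trans (erase_subset x J)) hX hUX)
      have hc : J.card = (J.erase x).card + 1 := (card_erase_add_one hx).symm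
      rw [← add_sum_erase _ _ hx, hc, sum_Icc_succ_top (by omega), ← hc, mul_add]
      have h3 : f x ^ 2 ≤ K * (1 / (J.card : ℝ)) := by
        have hJ0 : (0 : ℝ) < J.card := by
          have := card_pos.2 h0
          exact_mod_cast this
        rw [mul_one_div, le_div_iff₀ hJ0]
        linarith
      have h4 : ((J.card : ℕ) : ℝ) = (((J.erase x).card + 1 : ℕ) : ℝ) := by rw [← hc]
      linarith

end Pool.Agent.T6.H1.Rt
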