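import Mathlib

/-! The divisor bound (copied from `Pool/Agent/S17662.lean`) and the coefficients of the `κ`-th power of a
Dirichlet polynomial. -/

set_option autoImplicit false

namespace Pool.Agent.T6.H1.Rt

open Finset

/-- The divisor bound `d(n) ≤ C n^δ`. -/
lemma divisor_bound (δ : ℝ) (hδ : 0 < δ) :
    ∃ C : ℝ, 0 < C ∧ ∀ n : ℕ, n ≠ 0 → ((n.divisors.card : ℕ) : ℝ) ≤ C * (n : ℝ) ^ δ := by
  have hlog : 0 < Real.log 2 := Real.log_pos (by norm_num)
  have hδl : 0 < δ * Real.log 2 := mul_pos hδ hlog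
  set M : ℝ := max 1 (1 / (δ * Real.log 2)) with hM
  have hM1 : 1 ≤ M := le_max_left _ _
  have hM2 : 1 ≤ M * (δ * Real.log 2) := by
    have : 1 / (δ * Real.log 2) ≤ M := le_max_right _ _
    calc (1 : ℝ) = 1 / (δ * Real.log 2) * (δ * Real.log 2) := by
          field_simp
      _ ≤ M * (δ * Real.log 2) := mul_le_mul_of_nonneg_right this hδl.le
  set K : ℕ := ⌈(2 : ℝ) ^ (1 / δ)⌉₊ with hK
  have hKle : (2 : ℝ) ^ (1 / δ) ≤ (K : ℝ) := Nat.le_ceil _
  refine ⟨M ^ K, by positivity, ?_⟩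
  intro n hn
  have hbase : ∀ p ∈ n.primeFactors, (((n.factorization p + 1 : ℕ)) : ℝ) ≤
      (if p < K then M else 1) * (((p : ℝ) ^ (n.factorization p)) ^ δ) := by
    intro p hp
    have hpp : p.Prime := Nat.prime_of_mem_primeFactors hp
    set a := n.factorization p with ha
    have hp2 : (2 : ℝ) ≤ (p : ℝ) := by exact_mod_cast hpp.two_le
    have hp0 : (0 : ℝ) ≤ (p : ℝ) := by positivity
    have hpow : (((p : ℝ) ^ a) ^ δ) = ((p : ℝ) ^ δ) ^ a := by
      rw [← Real.rpow_natCast (p : ℝ) a, ← Real.rpow_mul hp0, ← Real.rpow_natCast ((p : ℝ) ^ δ) a,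
        ← Real.rpow_mul hp0, mul_comm]
    rw [hpow]
    split_ifs with hlt
    · have h1 : (2 : ℝ) ^ δ ≤ (p : ℝ) ^ δ := Real.rpow_le_rpow (by norm_num) hp2 hδ.le
      have h2 : ((2 : ℝ) ^ δ) ^ a ≤ ((p : ℝ) ^ δ) ^ a :=
        pow_le_pow_left₀ (by positivity) h1 a
      have h3 : 1 + (a : ℝ) * (δ * Real.log 2) ≤ ((2 : ℝ) ^ δ) ^ a := by
        have : ((2 : ℝ) ^ δ) ^ a = Real.exp ((a : ℝ) * (δ * Real.log 2)) := by
          rw [← Real.rpow_natCast, ← Real.rpow_mul (by norm_num), Real.rpow_def_of_pos (by norm_num)]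
          congr 1; ring
        rw [this]
        have := Real.add_one_le_exp ((a : ℝ) * (δ * Real.log 2))
        linarith
      have h4 : (((a + 1 : ℕ)) : ℝ) ≤ M * (1 + (a : ℝ) * (δ * Real.log 2)) := by
        push_cast
        have ha0 : (0 : ℝ) ≤ (a : ℝ) := by positivity
        nlinarith [mul_le_mul_of_nonneg_left hM2 ha0]
      calc (((a + 1 : ℕ)) : ℝ) ≤ M * (1 + (a : ℝ) * (δ * Real.log 2)) := h4
        _ ≤ M * (((p : ℝ) ^ δ) ^ a) :=
          mul_le_mul_of_nonneg_left (h3.trans h2) (by linarith)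
    · have hKp : (K : ℝ) ≤ (p : ℝ) := by exact_mod_cast not_lt.mp hlt
      have h1 : (2 : ℝ) ≤ (p : ℝ) ^ δ := by
        have h5 : ((2 : ℝ) ^ (1 / δ)) ^ δ ≤ (p : ℝ) ^ δ :=
          Real.rpow_le_rpow (by positivity) (hKle.trans hKp) hδ.le
        have h6 : ((2 : ℝ) ^ (1 / δ)) ^ δ = 2 := by
          rw [← Real.rpow_mul (by norm_num)]
          rw [one_div, inv_mul_cancel₀ hδ.ne', Real.rpow_one]
        rwa [h6] at h5
      have h2 : (2 : ℝ) ^ a ≤ ((p : ℝ) ^ δ) ^ a := pow_le_pow_left₀ (by norm_num) h1 a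
      have h3 : (((a + 1 : ℕ)) : ℝ) ≤ (2 : ℝ) ^ a := by
        have : a + 1 ≤ 2 ^ a := Nat.lt_two_pow_self
        exact_mod_cast this
      rw [one_mul]
      exact h3.trans h2
  have hn' : (n : ℝ) ^ δ = ∏ p ∈ n.primeFactors, (((p : ℝ) ^ (n.factorization p)) ^ δ) := by
    rw [Real.finsetProd_rpow _ _ (fun i _ => by positivity)]
    congr 1
    have := Nat.prod_factorization_pow_eq_self hn
    conv_lhs => rw [← this]
    rw [Finsupp.prod]
    push_cast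
    rfl
  rw [Nat.card_divisors hn]
  push_cast
  calc (∏ p ∈ n.primeFactors, ((n.factorization p : ℝ) + 1))
      ≤ ∏ p ∈ n.primeFactors, ((if p < K then M else 1) * (((p : ℝ) ^ (n.factorization p)) ^ δ)) := by
        apply Finset.prod_le_prod
        · intro i _; positivity
        · intro i hi
          have := hbase i hi
          push_cast at this
          exact this
    _ = (∏ p ∈ n.primeFactors, (if p < K then M else 1)) * (n : ℝ) ^ δ := by
        rw [Finset.prod_mul_distrib, hn']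
    _ ≤ M ^ K * (n : ℝ) ^ δ := by
        apply mul_le_mul_of_nonneg_right _ (by positivity)
        rw [Finset.prod_ite, Finset.prod_const, Finset.prod_const_one, mul_one]
        apply pow_le_pow_right₀ hM1
        calc (n.primeFactors.filter (fun p => p < K)).card ≤ (Finset.range K).card := by
              apply Finset.card_le_card
              intro x hx
              simp only [Finset.mem_filter] at hx
              exact Finset.mem_range.mpr hx.2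
          _ = K := Finset.card_range K


/-- the tuples of `κ` integers of `[N, 2 N]` -/
def FF (κ N : ℕ) : Finset (Fin κ → ℕ) := Fintype.piFinset (fun _ : Fin κ => Icc N (2 * N))

open Classical in
/-- the coefficients of the power -/
noncomputable def BB (b : ℕ → ℂ) (κ N μ : ℕ) : ℂ :=
  ∑ n ∈ (FF κ N).filter (fun n => ∏ i, n i = μ), ∏ i, b (n i)

lemma card_FF (κ N : ℕ) : (FF κ N).card = (N + 1) ^ κ := by
  unfold FF
  rw [Fintype.card_piFinset]
  simp only [Nat.card_Icc]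
  rw [prod_const, card_univ, Fintype.card_fin]
  congr 1
  omega

lemma prod_mem (κ N : ℕ) (n : Fin κ → ℕ) (hN : 1 ≤ N) (hn : n ∈ FF κ N) :
    ∏ i, n i ∈ Ico (N ^ κ) (2 ^ (κ + 1) * N ^ κ) := by
  unfold FF at hn
  rw [Fintype.mem_piFinset] at hn
  rw [mem_Ico]
  constructor
  · calc N ^ κ = ∏ _i : Fin κ, N := by rw [prod_const, card_univ, Fintype.card_fin]
      _ ≤ ∏ i, n i := prod_le_prod' fun i _ => (mem_Icc.1 (hn i)).1
  · calc ∏ i, n i ≤ ∏ _i : Fin κ, (2 * N) := prod_le_prod' fun i _ => (mem_Icc.1 (hn i)).2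
      _ = (2 * N) ^ κ := by rw [prod_const, card_univ, Fintype.card_fin]
      _ = 2 ^ κ * N ^ κ := mul_pow _ _ _
      _ < 2 ^ (κ + 1) * N ^ κ := by
        apply Nat.mul_lt_mul_of_pos_right _ (by positivity)
        exact Nat.pow_lt_pow_right (by norm_num) (by omega)

/-- the sum of `b_n n^(i t)` -/
noncomputable def DS (b : ℕ → ℂ) (N t : ℕ) : ℂ :=
  ∑ n ∈ Icc N (2 * N), b n * Complex.exp (Complex.I * t * Real.log n)

lemma power (b : ℕ → ℂ) (κ N t : ℕ) (hN : 1 ≤ N) :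
    DS b N t ^ κ = ∑ μ ∈ Ico (N ^ κ) (2 ^ (κ + 1) * N ^ κ),
      BB b κ N μ * Complex.exp (Complex.I * t * Real.log μ) := by
  classical
  have h2 : DS b N t ^ κ = ∑ n ∈ FF κ N,
      ∏ i, (b (n i) * Complex.exp (Complex.I * t * Real.log (n i))) := by
    unfold DS FF
    rw [← prod_univ_sum (fun _ : Fin κ => Icc N (2 * N))
      (fun _ n => b n * Complex.exp (Complex.I * t * Real.log n))]
    rw [prod_const, card_univ, Fintype.card_fin]
  rw [h2, ← sum_fiberwise_of_maps_to (g := fun n : Fin κ → ℕ => ∏ i, n i)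
    (fun n hn => prod_mem κ N n hN hn)]
  apply sum_congr rfl
  intro μ _
  unfold BB
  rw [sum_mul]
  apply sum_congr (by congr)
  intro n hn
  rw [mem_filter] at hn
  rw [prod_mul_distrib, ← Complex.exp_sum]
  congr 2
  have hpos : ∀ i, n i ≠ 0 := by
    intro i
    have h1 := hn.1
    unfold FF at h1
    rw [Fintype.mem_piFinset] at h1
    have := (mem_Icc.1 (h1 i)).1
    omega
  rw [← hn.2]
  push_cast
  rw [Real.log_prod (fun i _ => by exact_mod_cast hpos i)]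
  push_cast
  rw [mul_sum]

lemma BB_le (b : ℕ → ℂ) (hb : ∀ n, ‖b n‖ ≤ 1) (κ N μ : ℕ) (hN : 1 ≤ N) :
    ‖BB b κ N μ‖ ≤ ((((FF κ N).filter (fun n => ∏ i, n i = μ)).card : ℕ) : ℝ) := by
  classical
  unfold BB
  refine (norm_sum_le _ _).trans ?_
  have h1 : ∀ n ∈ (FF κ N).filter (fun n => ∏ i, n i = μ), ‖∏ i, b (n i)‖ ≤ 1 := by
    intro n _
    rw [norm_prod]
    exact prod_le_one (fun i _ => norm_nonneg _) fun i _ => hb _
  refine (sum_le_card_nsmul _ _ _ h1).trans (le_of_eq ?_)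
  rw [nsmul_eq_mul, mul_one]

lemma fib_le (κ N μ : ℕ) (hμ : μ ≠ 0) :
    ((FF κ N).filter (fun n => ∏ i, n i = μ)).card ≤ μ.divisors.card ^ κ := by
  have h1 : (FF κ N).filter (fun n => ∏ i, n i = μ) ⊆
      Fintype.piFinset (fun _ : Fin κ => μ.divisors) := by
    intro n hn
    rw [mem_filter] at hn
    rw [Fintype.mem_piFinset]
    intro i
    rw [Nat.mem_divisors]
    refine ⟨?_, hμ⟩
    rw [← hn.2]
    exact dvd_prod_of_mem _ (mem_univ i)
  refine (card_le_card h1).trans (le_of_eq ?_)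
  rw [Fintype.card_piFinset, prod_const, card_univ, Fintype.card_fin]

/-- the square norm of the coefficients -/
theorem BB_sq (κ : ℕ) (δ : ℝ) (hδ : 0 < δ) : ∃ C : ℝ, 0 < C ∧ ∀ (b : ℕ → ℂ), (∀ n, ‖b n‖ ≤ 1) →
    ∀ N : ℕ, 1 ≤ N → ∑ μ ∈ Ico (N ^ κ) (2 ^ (κ + 1) * N ^ κ), ‖BB b κ N μ‖ ^ 2 ≤
      C * (N : ℝ) ^ δ * (N : ℝ) ^ κ := by
  classical
  obtain ⟨δ', hδ'⟩ : ∃ δ' : ℝ, δ' = δ / ((κ : ℝ) ^ 2 + 1) := ⟨_, rfl⟩
  have hδ0 : 0 < δ' := by rw [hδ']; positivity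
  obtain ⟨C, hC, hdiv⟩ := divisor_bound δ' hδ0
  refine ⟨(C * (2 ^ (κ + 1)) ^ δ') ^ κ * 2 ^ κ, by positivity, fun b hb N hN => ?_⟩
  have hN0 : (0 : ℝ) < N := by exact_mod_cast hN
  have hN1 : (1 : ℝ) ≤ N := by exact_mod_cast hN
  set Q : ℝ := (C * (2 ^ (κ + 1)) ^ δ') ^ κ * (N : ℝ) ^ δ with hQ
  have hr : ∀ μ ∈ Ico (N ^ κ) (2 ^ (κ + 1) * N ^ κ),
      ((((FF κ N).filter (fun n => ∏ i, n i = μ)).card : ℕ) : ℝ) ≤ Q := by
    intro μ hμ
    rw [mem_Ico] at hμ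
    have hNk : 0 < N ^ κ := by positivity
    have hμ0 : μ ≠ 0 := by omega
    have h1 : ((((FF κ N).filter (fun n => ∏ i, n i = μ)).card : ℕ) : ℝ) ≤ (μ.divisors.card : ℝ) ^ κ := by
      exact_mod_cast fib_le κ N μ hμ0
    have h2 : (μ : ℝ) ≤ 2 ^ (κ + 1) * (N : ℝ) ^ κ := by exact_mod_cast hμ.2.le
    have h3 : (μ.divisors.card : ℝ) ≤ (C * (2 ^ (κ + 1)) ^ δ') * ((N : ℝ) ^ κ) ^ δ' := by
      refine (hdiv μ hμ0).trans ?_
      rw [mul_assoc, ← Real.mul_rpow (by positivity) (by positivity)]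
      apply mul_le_mul_of_nonneg_left _ hC.le
      exact Real.rpow_le_rpow (by positivity) h2 hδ0.le
    have h4 : (μ.divisors.card : ℝ) ^ κ ≤ (C * (2 ^ (κ + 1)) ^ δ') ^ κ * (((N : ℝ) ^ κ) ^ δ') ^ κ := by
      rw [← mul_pow]
      exact pow_le_pow_left₀ (by positivity) h3 κ
    have h5 : (((N : ℝ) ^ κ) ^ δ') ^ κ ≤ (N : ℝ) ^ δ := by
      rw [← Real.rpow_natCast, ← Real.rpow_natCast, ← Real.rpow_mul hN0.le, ← Real.rpow_mul hN0.le]
      apply Real.rpow_le_rpow_of_exponent_le hN1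
      rw [hδ']
      have h6 : (κ : ℝ) * (δ / ((κ : ℝ) ^ 2 + 1)) * κ = δ * ((κ : ℝ) ^ 2 / ((κ : ℝ) ^ 2 + 1)) := by
        field_simp
      rw [h6]
      have h7 : (κ : ℝ) ^ 2 / ((κ : ℝ) ^ 2 + 1) ≤ 1 := by
        rw [div_le_one (by positivity)]
        linarith
      nlinarith
    rw [hQ]
    refine h1.trans (h4.trans ?_)
    exact mul_le_mul_of_nonneg_left h5 (by positivity)
  have hQ0 : 0 ≤ Q := by rw [hQ]; positivity
  have h1 : ∀ μ ∈ Ico (N ^ κ) (2 ^ (κ + 1) * N ^ κ), ‖BB b κ N μ‖ ^ 2 ≤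
      Q * ((((FF κ N).filter (fun n => ∏ i, n i = μ)).card : ℕ) : ℝ) := by
    intro μ hμ
    have h2 := BB_le b hb κ N μ hN
    have h3 := hr μ hμ
    calc ‖BB b κ N μ‖ ^ 2 ≤ ((((FF κ N).filter (fun n => ∏ i, n i = μ)).card : ℕ) : ℝ) ^ 2 :=
          pow_le_pow_left₀ (norm_nonneg _) h2 2
      _ = ((((FF κ N).filter (fun n => ∏ i, n i = μ)).card : ℕ) : ℝ) *
          ((((FF κ N).filter (fun n => ∏ i, n i = μ)).card : ℕ) : ℝ) := sq _
      _ ≤ _ := mul_le_mul_of_nonneg_right h3 (Nat.cast_nonneg _)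
  refine (sum_le_sum h1).trans ?_
  rw [← mul_sum]
  have h2 : ∑ μ ∈ Ico (N ^ κ) (2 ^ (κ + 1) * N ^ κ),
      ((((FF κ N).filter (fun n => ∏ i, n i = μ)).card : ℕ) : ℝ) = ((N + 1) ^ κ : ℕ) := by
    rw [← Nat.cast_sum, ← card_FF κ N]
    congr 1
    exact (card_eq_sum_card_fiberwise (fun n hn => prod_mem κ N n hN hn)).symm
  rw [h2, hQ]
  have h3 : (((N + 1) ^ κ : ℕ) : ℝ) ≤ 2 ^ κ * (N : ℝ) ^ κ := by
    push_cast
    rw [← mul_pow]
    apply pow_le_pow_left₀ (by positivity)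
    linarith
  calc (C * (2 ^ (κ + 1)) ^ δ') ^ κ * (N : ℝ) ^ δ * (((N + 1) ^ κ : ℕ) : ℝ)
      ≤ (C * (2 ^ (κ + 1)) ^ δ') ^ κ * (N : ℝ) ^ δ * (2 ^ κ * (N : ℝ) ^ κ) :=
        mul_le_mul_of_nonneg_left h3 (by positivity)
    _ = _ := by ring

end Pool.Agent.T6.H1.Rt
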