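import Pool.Agent.T6.H1.Rt.Mo
import Pool.Agent.T6.H1.Rt.Det
import Pool.Agent.T6.H1.Rt.Cou

/-! Random samples of every polynomial size: the union bound and the conclusion. -/

set_option autoImplicit false

namespace Pool.Agent.T6.H1.Rt

open Finset
open scoped InnerProductSpace

section abstr

variable {V : Type*} [NormedAddCommGroup V] [InnerProductSpace ℂ V]

lemma yy_congr {ι : Type*} (v v' : ι → V) (c c' : ι → ℂ) (W : Finset ι)
    (hv : ∀ i ∈ W, v i = v' i) (hc : ∀ i ∈ W, c i = c' i) : yy v c W = yy v' c' W := by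
  unfold yy
  apply sum_congr rfl
  intro i hi
  rw [hv i hi, hc i hi]

/-- the bad event for the data `c, W` at the sample `x` -/
def Ev {m : ℕ} {ι : Type*} (v : ι → V) (L : ℝ) (c : Fin m → Fin 4) (W : Finset (Fin m))
    (τ : Fin m → ι) (x : ι) : Prop :=
  L * ‖yy (fun i => v (τ i)) (fun i => Complex.I ^ (c i : ℕ)) W‖ <
    ‖⟪v x, yy (fun i => v (τ i)) (fun i => Complex.I ^ (c i : ℕ)) W⟫_ℂ‖

open Classical in
theorem fewbad {m : ℕ} {ι : Type*} [Fintype ι] (v : ι → V) (L p θ : ℝ) (hp : 0 ≤ p)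
    (htail : ∀ y : V, (((univ : Finset ι).filter (fun x => L * ‖y‖ < ‖⟪v x, y⟫_ℂ‖)).card : ℝ) ≤
      p * Fintype.card ι)
    (hθ : 0 ≤ θ) (hθ1 : θ ≤ 1) (hpθ : m * p ≤ θ ^ 64) :
    ((univ.filter (fun τ : Fin m → ι => ∃ c : Fin m → Fin 4, ∃ W : Finset (Fin m), W.Nonempty ∧
      W.card < 64 * ((univ \ W).filter (fun j => Ev v L c W τ (τ j))).card)).card : ℝ) ≤
      ((1 + 4 * θ) ^ m - 1) * (Fintype.card ι : ℝ) ^ m := by
  set s : Finset (Fin m) → ℕ := fun W => W.card / 64 + 1 with hs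
  set P : Finset (Fin m) → Finset (Fin m → Fin 4) :=
    fun W => Fintype.piFinset (fun i => if i ∈ W then univ else {0}) with hP
  set Js : Finset (Fin m) → Finset (Finset (Fin m)) := fun W => powersetCard (s W) (univ \ W) with hJs
  set E : Finset (Fin m) → (Fin m → Fin 4) → Finset (Fin m) → Finset (Fin m → ι) :=
    fun W c J => univ.filter (fun τ => ∀ j ∈ J, Ev v L c W τ (τ j)) with hE
  -- each event is rare
  have hEc : ∀ W : Finset (Fin m), ∀ c, ∀ J ∈ Js W, ((E W c J).card : ℝ) ≤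
      p ^ (s W) * (Fintype.card ι : ℝ) ^ m := by
    intro W c J hJ
    rw [hJs, mem_powersetCard] at hJ
    have h1 := indep (κ := Fin m) (fun τ x => Ev v L c W τ x) p hp (fun τ => htail _) J ?_
    · rw [hJ.2, Fintype.card_fin] at h1
      rw [hE]
      convert h1
    · intro j hj τ x
      have hjW : j ∉ W := (mem_sdiff.1 (hJ.1 hj)).2
      have h2 : yy (fun i => v (Function.update τ j x i)) (fun i => Complex.I ^ (c i : ℕ)) W =
          yy (fun i => v (τ i)) (fun i => Complex.I ^ (c i : ℕ)) W := by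
        apply yy_congr _ _ _ _ _ _ (fun i _ => rfl)
        intro i hi
        have hne : i ≠ j := fun h => hjW (h ▸ hi)
        rw [Function.update_of_ne hne]
      funext z
      unfold Ev
      rw [h2]
  -- the union
  have hsub : (univ.filter (fun τ : Fin m → ι => ∃ c : Fin m → Fin 4, ∃ W : Finset (Fin m),
      W.Nonempty ∧ W.card < 64 * ((univ \ W).filter (fun j => Ev v L c W τ (τ j))).card)) ⊆
      ((univ : Finset (Finset (Fin m))).erase ∅).biUnion (fun W => (P W).biUnion (fun c =>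
        (Js W).biUnion (fun J => E W c J))) := by
    intro τ hτ
    rw [mem_filter] at hτ
    obtain ⟨-, c, W, hW, hlt⟩ := hτ
    rw [mem_biUnion]
    refine ⟨W, mem_erase.2 ⟨hW.ne_empty, mem_univ _⟩, ?_⟩
    rw [mem_biUnion]
    refine ⟨fun i => if i ∈ W then c i else 0, ?_, ?_⟩
    · rw [hP, Fintype.mem_piFinset]
      intro i
      by_cases hi : i ∈ W
      · simp [hi]
      · simp [hi]
    · have hEv : ∀ x, Ev v L (fun i => if i ∈ W then c i else 0) W τ x ↔ Ev v L c W τ x := by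
        intro x
        unfold Ev
        have h2 : yy (fun i => v (τ i)) (fun i => Complex.I ^ (((if i ∈ W then c i else 0 : Fin 4)) : ℕ)) W =
            yy (fun i => v (τ i)) (fun i => Complex.I ^ (c i : ℕ)) W := by
          apply yy_congr _ _ _ _ _ (fun i _ => rfl)
          intro i hi
          rw [if_pos hi]
        rw [h2]
      have hle : s W ≤ ((univ \ W).filter (fun j => Ev v L c W τ (τ j))).card := by
        rw [hs]
        dsimp only
        omega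
      obtain ⟨J, hJ1, hJ2⟩ := exists_subset_card_eq hle
      rw [mem_biUnion]
      refine ⟨J, ?_, ?_⟩
      · rw [hJs, mem_powersetCard]
        exact ⟨hJ1.trans (filter_subset _ _), hJ2⟩
      · rw [hE, mem_filter]
        refine ⟨mem_univ _, fun j hj => ?_⟩
        rw [hEv]
        exact (mem_filter.1 (hJ1 hj)).2
  have hPc : ∀ W : Finset (Fin m), (P W).card = 4 ^ W.card := by
    intro W
    rw [hP, Fintype.card_piFinset]
    have : ∀ i : Fin m, (if i ∈ W then (univ : Finset (Fin 4)) else {0}).card = if i ∈ W then 4 else 1 := by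
      intro i
      split_ifs <;> simp
    simp only [this]
    rw [prod_ite_mem, univ_inter, prod_const]
  have hJc : ∀ W : Finset (Fin m), (Js W).card ≤ m ^ (s W) := by
    intro W
    rw [hJs, card_powersetCard]
    refine (Nat.choose_le_choose _ (card_le_univ _)).trans ?_
    rw [Fintype.card_fin]
    exact Nat.choose_le_pow _ _
  have hι : (0 : ℝ) ≤ (Fintype.card ι : ℝ) ^ m := by positivity
  have hW1 : ∀ W ∈ (univ : Finset (Finset (Fin m))).erase ∅,
      ((((P W).biUnion (fun c => (Js W).biUnion (fun J => E W c J))).card : ℕ) : ℝ) ≤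
      (4 * θ) ^ W.card * (Fintype.card ι : ℝ) ^ m := by
    intro W _
    have h1 : ((((P W).biUnion (fun c => (Js W).biUnion (fun J => E W c J))).card : ℕ) : ℝ) ≤
        ∑ c ∈ P W, ∑ J ∈ Js W, ((E W c J).card : ℝ) := by
      have h2 : ((P W).biUnion (fun c => (Js W).biUnion (fun J => E W c J))).card ≤
          ∑ c ∈ P W, ∑ J ∈ Js W, (E W c J).card :=
        card_biUnion_le.trans (sum_le_sum fun c _ => card_biUnion_le)
      exact_mod_cast h2
    have h3 : ∑ c ∈ P W, ∑ J ∈ Js W, ((E W c J).card : ℝ) ≤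
        4 ^ W.card * ((m : ℝ) ^ (s W) * (p ^ (s W) * (Fintype.card ι : ℝ) ^ m)) := by
      have h4 : ∀ c ∈ P W, ∑ J ∈ Js W, ((E W c J).card : ℝ) ≤
          (m : ℝ) ^ (s W) * (p ^ (s W) * (Fintype.card ι : ℝ) ^ m) := by
        intro c _
        refine (sum_le_card_nsmul _ _ _ (hEc W c)).trans ?_
        rw [nsmul_eq_mul]
        apply mul_le_mul_of_nonneg_right _ (by positivity)
        exact_mod_cast hJc W
      refine (sum_le_card_nsmul _ _ _ h4).trans (le_of_eq ?_)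
      rw [nsmul_eq_mul, hPc]
      push_cast
      ring
    refine h1.trans (h3.trans ?_)
    have h5 : (m * p) ^ (s W) ≤ θ ^ W.card := by
      calc (m * p) ^ (s W) ≤ (θ ^ 64) ^ (s W) := pow_le_pow_left₀ (by positivity) hpθ _
        _ = θ ^ (64 * s W) := by rw [← pow_mul]
        _ ≤ θ ^ W.card := by
          apply pow_le_pow_of_le_one hθ hθ1
          rw [hs]
          dsimp only
          omega
    calc 4 ^ W.card * ((m : ℝ) ^ (s W) * (p ^ (s W) * (Fintype.card ι : ℝ) ^ m))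
        = 4 ^ W.card * (m * p) ^ (s W) * (Fintype.card ι : ℝ) ^ m := by rw [mul_pow]; ring
      _ ≤ 4 ^ W.card * θ ^ W.card * (Fintype.card ι : ℝ) ^ m := by
          apply mul_le_mul_of_nonneg_right _ hι
          exact mul_le_mul_of_nonneg_left h5 (by positivity)
      _ = _ := by rw [mul_pow]
  have htot : ∑ W ∈ (univ : Finset (Finset (Fin m))).erase ∅, (4 * θ) ^ W.card = (1 + 4 * θ) ^ m - 1 := by
    have h1 := sum_pow_mul_eq_add_pow (4 * θ) 1 (univ : Finset (Fin m))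
    simp only [one_pow, mul_one, card_univ, Fintype.card_fin, powerset_univ] at h1
    have h2 := add_sum_erase (univ : Finset (Finset (Fin m))) (fun W => (4 * θ) ^ W.card) (mem_univ ∅)
    rw [h1, card_empty, pow_zero] at h2
    rw [add_comm 1 (4 * θ), ← h2]
    ring
  calc ((univ.filter (fun τ : Fin m → ι => ∃ c : Fin m → Fin 4, ∃ W : Finset (Fin m), W.Nonempty ∧
      W.card < 64 * ((univ \ W).filter (fun j => Ev v L c W τ (τ j))).card)).card : ℝ)
      ≤ ((((univ : Finset (Finset (Fin m))).erase ∅).biUnion (fun W => (P W).biUnion (fun c =>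
        (Js W).biUnion (fun J => E W c J)))).card : ℝ) := by exact_mod_cast card_le_card hsub
    _ ≤ ∑ W ∈ (univ : Finset (Finset (Fin m))).erase ∅,
        ((((P W).biUnion (fun c => (Js W).biUnion (fun J => E W c J))).card : ℕ) : ℝ) := by
          exact_mod_cast card_biUnion_le
    _ ≤ ∑ W ∈ (univ : Finset (Finset (Fin m))).erase ∅, (4 * θ) ^ W.card * (Fintype.card ι : ℝ) ^ m :=
        sum_le_sum hW1
    _ = _ := by rw [← sum_mul, htot]

open Classical in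
/-- the good tuples satisfy the large values estimate -/
theorem goodlv {m : ℕ} {ι : Type*} (v : ι → V) (L R : ℝ) (hL : 0 ≤ L) (hR : 0 ≤ R)
    (hv : ∀ x, ‖v x‖ ^ 2 ≤ R) (τ : Fin m → ι)
    (hgood : ¬ ∃ c : Fin m → Fin 4, ∃ W : Finset (Fin m), W.Nonempty ∧
      W.card < 64 * ((univ \ W).filter (fun j => Ev v L c W τ (τ j))).card) (r : ℕ) (b : V) (X : ℝ)
    (hX : 0 ≤ X) (J : Finset (Fin m)) (hJ : J.card ≤ r) (hlarge : ∀ j ∈ J, X ≤ ‖⟪v (τ j), b⟫_ℂ‖) :
    (J.card : ℝ) * X ^ 2 ≤ 4 * (4 * (Real.sqrt R + 4 * Real.sqrt r * L) ^ 2) * ‖b‖ ^ 2 := by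
  apply large (fun j => v (τ j)) _ (by positivity) r _ b X hX J hJ hlarge
  intro c hc W hW
  choose k hk using hc
  have hc' : c = fun i => Complex.I ^ (k i : ℕ) := funext hk
  rw [hc']
  apply boot (fun j => v (τ j)) _ _ R L r hR hL (fun i => hv _) _ W hW
  · intro i
    rw [norm_pow, Complex.norm_I, one_pow]
  · intro W hWn _
    by_contra h
    exact hgood ⟨k, W, hWn, not_le.1 h⟩

end abstr

/-- the vector of the characters at the time `t` -/
noncomputable def vv (N t : ℕ) : EuclideanSpace ℂ (Fin (N + 1)) :=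
  WithLp.toLp 2 (fun i => (starRingEnd ℂ) (ex1 t (N + i)))

/-- the coefficients of a vector -/
noncomputable def ext (N : ℕ) (y : EuclideanSpace ℂ (Fin (N + 1))) : ℕ → ℂ :=
  fun n => if h : n - N < N + 1 then y ⟨n - N, h⟩ else 0

/-- the vector of the coefficients -/
noncomputable def vec (N : ℕ) (b : ℕ → ℂ) : EuclideanSpace ℂ (Fin (N + 1)) :=
  WithLp.toLp 2 (fun i => b (N + i))

lemma sum_shift (N : ℕ) {M : Type*} [AddCommMonoid M] (f : ℕ → M) :
    ∑ n ∈ Icc N (2 * N), f n = ∑ i : Fin (N + 1), f (N + i) := by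
  rw [Finset.sum_fin_eq_sum_range]
  rw [← Finset.sum_bij (s := range (N + 1)) (f := fun i => f (N + i)) (fun i _ => N + i)]
  · apply sum_congr rfl
    intro i hi
    rw [dif_pos (mem_range.1 hi)]
  · intro i hi
    rw [mem_range] at hi
    rw [mem_Icc]
    omega
  · intro i _ j _ h
    omega
  · intro n hn
    rw [mem_Icc] at hn
    exact ⟨n - N, mem_range.2 (by omega), by omega⟩
  · intro i _
    rfl

lemma ext_apply (N : ℕ) (y : EuclideanSpace ℂ (Fin (N + 1))) (i : Fin (N + 1)) :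
    ext N y (N + i) = y i := by
  unfold ext
  have h : N + (i : ℕ) - N < N + 1 := by omega
  have h2 : (⟨N + (i : ℕ) - N, h⟩ : Fin (N + 1)) = i := Fin.ext (by simp)
  rw [dif_pos h, h2]

lemma inner_vv (N t : ℕ) (y : EuclideanSpace ℂ (Fin (N + 1))) : ⟪vv N t, y⟫_ℂ = DS (ext N y) N t := by
  unfold DS
  rw [sum_shift, PiLp.inner_apply]
  apply sum_congr rfl
  intro i _
  rw [ext_apply]
  unfold vv ex1
  simp

lemma inner_vec (N t : ℕ) (b : ℕ → ℂ) : ⟪vv N t, vec N b⟫_ℂ = DS b N t := by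
  unfold DS
  rw [sum_shift, PiLp.inner_apply]
  apply sum_congr rfl
  intro i _
  unfold vv vec ex1
  simp

lemma norm_vv (N t : ℕ) : ‖vv N t‖ ^ 2 = N + 1 := by
  rw [EuclideanSpace.norm_sq_eq]
  have : ∀ i : Fin (N + 1), ‖vv N t i‖ ^ 2 = 1 := by
    intro i
    unfold vv
    simp [norm_ex1]
  simp only [this]
  simp

lemma norm_vec (N : ℕ) (hN : 1 ≤ N) (b : ℕ → ℂ) (hb : ∀ n, ‖b n‖ ≤ 1) : ‖vec N b‖ ^ 2 ≤ 2 * N := by
  rw [EuclideanSpace.norm_sq_eq]
  have : ∀ i ∈ (univ : Finset (Fin (N + 1))), ‖vec N b i‖ ^ 2 ≤ 1 := by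
    intro i _
    unfold vec
    simp only
    exact pow_le_one₀ (norm_nonneg _) (hb _)
  refine (sum_le_card_nsmul _ _ _ this).trans ?_
  rw [card_univ, Fintype.card_fin, nsmul_eq_mul, mul_one]
  have : N + 1 ≤ 2 * N := by omega
  exact_mod_cast this

lemma sq_ext (N : ℕ) (y : EuclideanSpace ℂ (Fin (N + 1))) : sq (ext N y) N = ‖y‖ ^ 2 := by
  unfold sq
  rw [sum_shift, EuclideanSpace.norm_sq_eq]
  apply sum_congr rfl
  intro i _
  rw [ext_apply]

lemma card_sub (T : ℕ) (P : ℕ → Prop) [DecidablePred P] :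
    (((univ : Finset (Icc 1 T)).filter (fun x : Icc 1 T => P (x : ℕ))).card) ≤ ((Icc 1 T).filter P).card := by
  apply card_le_card_of_injOn (fun x : Icc 1 T => (x : ℕ))
  · intro x hx
    rw [mem_coe, mem_filter] at hx
    rw [mem_coe, mem_filter]
    exact ⟨x.2, hx.2⟩
  · intro x _ y _ h
    exact Subtype.ext h

lemma pow_small (x : ℝ) (hx : 0 ≤ x) (m : ℕ) (h : m * x ≤ 1 / 2) :
    (1 + x) ^ m - 1 ≤ 2 * (m * x) := by
  have h0 : 0 ≤ m * x := by positivity
  have h1 : (1 + x) ^ m ≤ Real.exp (m * x) := by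
    rw [Real.exp_nat_mul]
    apply pow_le_pow_left₀ (by positivity)
    rw [add_comm]
    exact Real.add_one_le_exp x
  have h2 := Real.exp_bound_div_one_sub_of_interval h0 (by linarith)
  have h3 : 1 / (1 - m * x) ≤ 1 + 2 * (m * x) := by
    rw [div_le_iff₀ (by linarith)]
    nlinarith
  linarith

open Classical in
/-- almost all tuples satisfy the large values estimate -/
theorem core (A D : ℕ) (δ : ℝ) (hδ : 0 < δ) : ∃ (B : ℕ) (C : ℝ), 0 < C ∧ ∀ N m T : ℕ, 1 ≤ N →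
    m ≤ N ^ A → N ^ B ≤ T →
    (((univ.filter (fun τ : Fin m → Icc 1 T => ∃ (b : ℕ → ℂ) (X : ℝ) (J : Finset (Fin m)),
      (∀ n, ‖b n‖ ≤ 1) ∧ 0 ≤ X ∧ J.card ≤ N ∧ (∀ j ∈ J, X ≤ ‖DS b N (τ j : ℕ)‖) ∧
      (34 * (Real.sqrt N * (N : ℝ) ^ δ)) ^ 2 * N < J.card * X ^ 2)).card : ℕ) : ℝ) ≤
      C * ((N : ℝ) ^ D)⁻¹ * (T : ℝ) ^ m := by
  obtain ⟨k, hk⟩ := exists_nat_ge (((A + 2 + 64 * (A + D) : ℕ) : ℝ) / (2 * δ))
  rw [div_le_iff₀ (by positivity)] at hk
  obtain ⟨C1, hC1, htail⟩ := tail k 1 one_pos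
  refine ⟨k, 1 + (C1 * 8 ^ 64) ^ D, by positivity, fun N m T hN hm hT => ?_⟩
  have hN0 : (0 : ℝ) < N := by exact_mod_cast hN
  have hN1 : (1 : ℝ) ≤ N := by exact_mod_cast hN
  have hcT : Fintype.card (Icc 1 T) = T := by simp
  have hTm : (0 : ℝ) ≤ (T : ℝ) ^ m := by positivity
  rcases lt_or_ge (N : ℝ) (C1 * 8 ^ 64) with hsm | hbig
  · -- small `N`
    have h1 : (((univ.filter (fun τ : Fin m → Icc 1 T => ∃ (b : ℕ → ℂ) (X : ℝ) (J : Finset (Fin m)),
      (∀ n, ‖b n‖ ≤ 1) ∧ 0 ≤ X ∧ J.card ≤ N ∧ (∀ j ∈ J, X ≤ ‖DS b N (τ j : ℕ)‖) ∧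
      (34 * (Real.sqrt N * (N : ℝ) ^ δ)) ^ 2 * N < J.card * X ^ 2)).card : ℕ) : ℝ) ≤ (T : ℝ) ^ m := by
      have h2 := card_le_univ (univ.filter (fun τ : Fin m → Icc 1 T => ∃ (b : ℕ → ℂ) (X : ℝ)
        (J : Finset (Fin m)), (∀ n, ‖b n‖ ≤ 1) ∧ 0 ≤ X ∧ J.card ≤ N ∧
        (∀ j ∈ J, X ≤ ‖DS b N (τ j : ℕ)‖) ∧
        (34 * (Real.sqrt N * (N : ℝ) ^ δ)) ^ 2 * N < J.card * X ^ 2))
      have h3 : Fintype.card (Fin m → Icc 1 T) = T ^ m := by
        rw [Fintype.card_fun, hcT, Fintype.card_fin]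
      rw [h3] at h2
      exact_mod_cast h2
    refine h1.trans ?_
    have h4 : 1 ≤ (1 + (C1 * 8 ^ 64) ^ D) * ((N : ℝ) ^ D)⁻¹ := by
      rw [← div_eq_mul_inv, le_div_iff₀ (by positivity), one_mul]
      have := pow_le_pow_left₀ hN0.le hsm.le D
      linarith
    nlinarith
  -- large `N`
  have hNδ : (1 : ℝ) ≤ (N : ℝ) ^ δ := Real.one_le_rpow hN1 hδ.le
  set L : ℝ := (N : ℝ) ^ δ with hL
  have hL0 : 0 < L := by linarith
  set p : ℝ := C1 * (N : ℝ) * (L ^ (2 * k))⁻¹ with hp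
  set θ : ℝ := (8 * (N : ℝ) ^ (A + D))⁻¹ with hθ
  have hp0 : 0 ≤ p := by rw [hp]; positivity
  have hθ0 : 0 ≤ θ := by rw [hθ]; positivity
  have hθ1 : θ ≤ 1 := by
    rw [hθ]
    apply inv_le_one_of_one_le₀
    have : (1 : ℝ) ≤ (N : ℝ) ^ (A + D) := one_le_pow₀ hN1
    linarith
  have hm' : (m : ℝ) ≤ (N : ℝ) ^ A := by exact_mod_cast hm
  have hpθ : m * p ≤ θ ^ 64 := by
    have h1 : (N : ℝ) ^ (A + 2 + 64 * (A + D)) ≤ L ^ (2 * k) := by
      rw [hL, ← Real.rpow_natCast ((N : ℝ) ^ δ), ← Real.rpow_mul hN0.le, ← Real.rpow_natCast (N : ℝ)]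
      apply Real.rpow_le_rpow_of_exponent_le hN1
      refine hk.trans (le_of_eq ?_)
      push_cast
      ring
    have h2 : θ ^ 64 = (8 ^ 64 * (N : ℝ) ^ (64 * (A + D)))⁻¹ := by
      rw [hθ, inv_pow, mul_pow, ← pow_mul]
      ring_nf
    rw [h2, hp]
    have hLk : 0 < L ^ (2 * k) := by positivity
    have h3 : 0 < 8 ^ 64 * (N : ℝ) ^ (64 * (A + D)) := by positivity
    calc (m : ℝ) * (C1 * (N : ℝ) * (L ^ (2 * k))⁻¹)
        ≤ (N : ℝ) ^ A * (C1 * (N : ℝ) * (L ^ (2 * k))⁻¹) :=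
          mul_le_mul_of_nonneg_right hm' (by positivity)
      _ ≤ (8 ^ 64 * (N : ℝ) ^ (64 * (A + D)))⁻¹ := by
          rw [← mul_assoc, ← div_eq_mul_inv, div_le_iff₀ hLk, inv_mul_eq_div, le_div_iff₀ h3]
          refine le_trans ?_ h1
          have h4 : C1 * 8 ^ 64 * ((N : ℝ) ^ A * N * (N : ℝ) ^ (64 * (A + D))) ≤
              N * ((N : ℝ) ^ A * N * (N : ℝ) ^ (64 * (A + D))) :=
            mul_le_mul_of_nonneg_right hbig (by positivity)
          calc (N : ℝ) ^ A * (C1 * N) * (8 ^ 64 * (N : ℝ) ^ (64 * (A + D)))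
              = C1 * 8 ^ 64 * ((N : ℝ) ^ A * N * (N : ℝ) ^ (64 * (A + D))) := by ring
            _ ≤ N * ((N : ℝ) ^ A * N * (N : ℝ) ^ (64 * (A + D))) := h4
            _ = (N : ℝ) ^ (A + 2 + 64 * (A + D)) := by
                rw [pow_add, pow_add]
                ring
  have htl : ∀ y : EuclideanSpace ℂ (Fin (N + 1)),
      (((univ : Finset (Icc 1 T)).filter (fun x : Icc 1 T => L * ‖y‖ < ‖⟪vv N (x : ℕ), y⟫_ℂ‖)).card : ℝ) ≤
      p * Fintype.card (Icc 1 T) := by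
    intro y
    have h1 := htail (ext N y) N T L hN hT hL0
    rw [sq_ext, Real.sqrt_sq (norm_nonneg _), Real.rpow_one] at h1
    rw [hcT, hp]
    refine le_trans ?_ h1
    simp only [inner_vv]
    exact_mod_cast card_sub T (fun x => L * ‖y‖ < ‖DS (ext N y) N x‖)
  have hfb := fewbad (m := m) (fun x : Icc 1 T => vv N (x : ℕ)) L p θ hp0 htl hθ0 hθ1 hpθ
  have hfin : (1 + 4 * θ) ^ m - 1 ≤ ((N : ℝ) ^ D)⁻¹ := by
    have h1 : m * (4 * θ) ≤ 1 / 2 * ((N : ℝ) ^ D)⁻¹ := by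
      calc (m : ℝ) * (4 * θ) ≤ (N : ℝ) ^ A * (4 * θ) := mul_le_mul_of_nonneg_right hm' (by positivity)
        _ = 1 / 2 * ((N : ℝ) ^ D)⁻¹ := by
          rw [hθ, pow_add]
          have : (N : ℝ) ^ A ≠ 0 := by positivity
          have : (N : ℝ) ^ D ≠ 0 := by positivity
          field_simp
          norm_num
    have h2 : ((N : ℝ) ^ D)⁻¹ ≤ 1 := inv_le_one_of_one_le₀ (one_le_pow₀ hN1)
    have h3 := pow_small (4 * θ) (by positivity) m (by linarith)
    linarith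
  have hsub : (univ.filter (fun τ : Fin m → Icc 1 T => ∃ (b : ℕ → ℂ) (X : ℝ) (J : Finset (Fin m)),
      (∀ n, ‖b n‖ ≤ 1) ∧ 0 ≤ X ∧ J.card ≤ N ∧ (∀ j ∈ J, X ≤ ‖DS b N (τ j : ℕ)‖) ∧
      (34 * (Real.sqrt N * L)) ^ 2 * N < J.card * X ^ 2)) ⊆
      (univ.filter (fun τ : Fin m → Icc 1 T => ∃ c : Fin m → Fin 4, ∃ W : Finset (Fin m),
        W.Nonempty ∧ W.card < 64 * ((univ \ W).filter (fun j =>
          Ev (fun x : Icc 1 T => vv N (x : ℕ)) L c W τ (τ j))).card)) := by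
    intro τ hτ
    rw [mem_filter] at hτ ⊢
    refine ⟨mem_univ _, ?_⟩
    obtain ⟨-, b, X, J, hb, hX, hJ, hlarge, hlt⟩ := hτ
    by_contra hgood
    apply absurd hlt
    rw [not_lt]
    have hR : ∀ x : Icc 1 T, ‖vv N (x : ℕ)‖ ^ 2 ≤ 2 * (N : ℝ) := by
      intro x
      rw [norm_vv]
      linarith
    have h1 := goodlv (fun x : Icc 1 T => vv N (x : ℕ)) L (2 * N) hL0.le (by positivity) hR τ hgood N
      (vec N b) X hX J hJ (by
        intro j hj
        rw [inner_vec]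
        exact hlarge j hj)
    refine h1.trans ?_
    have h2 := norm_vec N hN b hb
    have h3 : Real.sqrt (2 * N) + 4 * Real.sqrt N * L ≤ 6 * (Real.sqrt N * L) := by
      have h4 : Real.sqrt (2 * N) ≤ 2 * Real.sqrt N := by
        rw [Real.sqrt_mul (by norm_num)]
        apply mul_le_mul_of_nonneg_right _ (Real.sqrt_nonneg _)
        rw [Real.sqrt_le_left (by norm_num)]
        norm_num
      have h5 : Real.sqrt N * 1 ≤ Real.sqrt N * L := mul_le_mul_of_nonneg_left hNδ (Real.sqrt_nonneg _)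
      linarith
    have h4 : (Real.sqrt (2 * N) + 4 * Real.sqrt N * L) ^ 2 ≤ (6 * (Real.sqrt N * L)) ^ 2 :=
      pow_le_pow_left₀ (by positivity) h3 2
    calc 4 * (4 * (Real.sqrt (2 * N) + 4 * Real.sqrt N * L) ^ 2) * ‖vec N b‖ ^ 2
        ≤ 4 * (4 * (6 * (Real.sqrt N * L)) ^ 2) * (2 * N) :=
          mul_le_mul (by linarith) h2 (by positivity) (by positivity)
      _ = 1152 * ((Real.sqrt N * L) ^ 2 * N) := by ring
      _ ≤ 1156 * ((Real.sqrt N * L) ^ 2 * N) := by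
          apply mul_le_mul_of_nonneg_right (by norm_num) (by positivity)
      _ = (34 * (Real.sqrt N * L)) ^ 2 * N := by ring
  calc (((univ.filter (fun τ : Fin m → Icc 1 T => ∃ (b : ℕ → ℂ) (X : ℝ) (J : Finset (Fin m)),
      (∀ n, ‖b n‖ ≤ 1) ∧ 0 ≤ X ∧ J.card ≤ N ∧ (∀ j ∈ J, X ≤ ‖DS b N (τ j : ℕ)‖) ∧
      (34 * (Real.sqrt N * L)) ^ 2 * N < J.card * X ^ 2)).card : ℕ) : ℝ)
      ≤ ((1 + 4 * θ) ^ m - 1) * (Fintype.card (Icc 1 T) : ℝ) ^ m := by
        refine le_trans ?_ hfb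
        exact_mod_cast card_le_card hsub
    _ ≤ ((N : ℝ) ^ D)⁻¹ * (T : ℝ) ^ m := by
        rw [hcT]
        exact mul_le_mul_of_nonneg_right hfin hTm
    _ ≤ (1 + (C1 * 8 ^ 64) ^ D) * ((N : ℝ) ^ D)⁻¹ * (T : ℝ) ^ m := by
        apply mul_le_mul_of_nonneg_right _ hTm
        have h5 : 0 ≤ (C1 * 8 ^ 64) ^ D := by positivity
        have h6 : 0 < ((N : ℝ) ^ D)⁻¹ := by positivity
        exact le_mul_of_one_le_left h6.le (by linarith)

/-- the large values estimate for sets of every size -/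
lemma lvfull {m : ℕ} (f : Fin m → ℝ) (N : ℕ) (hN : 1 ≤ N) (G : ℝ) (hG : 0 ≤ G)
    (h : ∀ (X : ℝ) (J : Finset (Fin m)), 0 ≤ X → J.card ≤ N → (∀ j ∈ J, X ≤ f j) →
      J.card * X ^ 2 ≤ G ^ 2 * N) (X : ℝ) (hX : G < X) (J : Finset (Fin m)) (hJ : ∀ j ∈ J, X ≤ f j) :
    J.card < N ∧ J.card * X ^ 2 ≤ G ^ 2 * N := by
  have hN0 : (0 : ℝ) < N := by exact_mod_cast hN
  have h1 : J.card < N := by
    by_contra h2
    obtain ⟨U, hU1, hU2⟩ := exists_subset_card_eq (not_lt.1 h2)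
    have h3 := h X U (hG.trans hX.le) hU2.le (fun j hj => hJ j (hU1 hj))
    rw [hU2, mul_comm] at h3
    have h4 := le_of_mul_le_mul_right h3 hN0
    have h5 := abs_le_of_sq_le_sq' h4 hG
    linarith [h5.2]
  exact ⟨h1, h X J (hG.trans hX.le) h1.le hJ⟩

/-- from the large values estimate to the moments -/
lemma moments {m : ℕ} (f : Fin m → ℝ) (hf : ∀ j, 0 ≤ f j) (N : ℕ) (hN : 1 ≤ N)
    (hf2 : ∀ j, f j ≤ 2 * N) (G : ℝ) (hG : 0 ≤ G)
    (h : ∀ (X : ℝ) (J : Finset (Fin m)), 0 ≤ X → J.card ≤ N → (∀ j ∈ J, X ≤ f j) →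
      J.card * X ^ 2 ≤ G ^ 2 * N) (q : ℝ) (hq : 2 ≤ q) :
    ∑ j, f j ^ q ≤ m * G ^ q + (2 * (N : ℝ)) ^ (q - 2) * (G ^ 2 * N * (1 + Real.log N)) := by
  classical
  have hN0 : (0 : ℝ) < N := by exact_mod_cast hN
  have hN1 : (1 : ℝ) ≤ N := by exact_mod_cast hN
  set J0 := (univ : Finset (Fin m)).filter (fun j => G < f j) with hJ0
  have hJ0c : J0.card ≤ N := by
    by_contra h2
    obtain ⟨U, hU1, hU2⟩ := exists_subset_card_eq (not_le.1 h2).le
    have hUn : U.Nonempty := by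
      rw [← card_pos, hU2]
      omega
    obtain ⟨x, hx, hmin⟩ := exists_min_image U f hUn
    have hGx : G < f x := (mem_filter.1 (hU1 hx)).2
    have := (lvfull f N hN G hG h (f x) hGx U hmin).1
    omega
  have h1 := sum_sq_le f hf (G ^ 2 * N) N J0 hJ0c (fun U X hU hX hUX =>
    h X U hX ((card_le_card hU).trans hJ0c) hUX)
  have h2 : ∑ i ∈ Icc 1 J0.card, (1 : ℝ) / i ≤ 1 + Real.log N := by
    have h3 := harmonic_le_one_add_log N
    rw [harmonic_eq_sum_Icc] at h3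
    push_cast at h3
    refine le_trans ?_ h3
    have h4 : ∑ i ∈ Icc 1 J0.card, (1 : ℝ) / i ≤ ∑ i ∈ Icc 1 N, (1 : ℝ) / i := by
      apply sum_le_sum_of_subset_of_nonneg
      · exact Icc_subset_Icc le_rfl hJ0c
      · intro i _ _
        positivity
    simpa using h4
  have h3 : ∑ j ∈ J0, f j ^ 2 ≤ G ^ 2 * N * (1 + Real.log N) :=
    h1.trans (mul_le_mul_of_nonneg_left h2 (by positivity))
  rw [← sum_filter_add_sum_filter_not univ (fun j => G < f j), ← hJ0, add_comm]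
  apply add_le_add
  · have h4 : ∀ j ∈ (univ : Finset (Fin m)).filter (fun j => ¬ G < f j), f j ^ q ≤ G ^ q := by
      intro j hj
      exact Real.rpow_le_rpow (hf j) (not_lt.1 (mem_filter.1 hj).2) (by linarith)
    refine (sum_le_card_nsmul _ _ _ h4).trans ?_
    rw [nsmul_eq_mul]
    apply mul_le_mul_of_nonneg_right _ (Real.rpow_nonneg hG _)
    have := card_le_univ ((univ : Finset (Fin m)).filter (fun j => ¬ G < f j))
    rw [Fintype.card_fin] at this
    exact_mod_cast this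
  · have h4 : ∀ j ∈ J0, f j ^ q ≤ (2 * (N : ℝ)) ^ (q - 2) * f j ^ 2 := by
      intro j _
      have h5 : f j ^ q = f j ^ (q - 2) * f j ^ 2 := by
        rw [← Real.rpow_natCast (f j) 2, ← Real.rpow_add_of_nonneg (hf j) (by linarith) (by norm_num)]
        congr 1
        push_cast
        ring
      rw [h5]
      apply mul_le_mul_of_nonneg_right _ (by positivity)
      exact Real.rpow_le_rpow (hf j) (hf2 j) (by linarith)
    refine (sum_le_sum h4).trans ?_
    rw [← mul_sum]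
    exact mul_le_mul_of_nonneg_left h3 (by positivity)

end Pool.Agent.T6.H1.Rt
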