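import Pool.Agent.T6.H1.Rt.Mv
import Pool.Agent.T6.H1.Rt.Dv

/-! High moments of a Dirichlet polynomial with arbitrary coefficients over a long range of times. -/

set_option autoImplicit false

namespace Pool.Agent.T6.H1.Rt

open Finset

/-- the square norm of the coefficients -/
noncomputable def sq (b : ℕ → ℂ) (N : ℕ) : ℝ := ∑ n ∈ Icc N (2 * N), ‖b n‖ ^ 2

lemma sq_nonneg' (b : ℕ → ℂ) (N : ℕ) : 0 ≤ sq b N := sum_nonneg fun _ _ => by positivity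

theorem BB_sq2 (κ : ℕ) (δ : ℝ) (hδ : 0 < δ) : ∃ C : ℝ, 0 < C ∧ ∀ (b : ℕ → ℂ) (N : ℕ), 1 ≤ N →
    ∑ μ ∈ Ico (N ^ κ) (2 ^ (κ + 1) * N ^ κ), ‖BB b κ N μ‖ ^ 2 ≤ C * (N : ℝ) ^ δ * sq b N ^ κ := by
  classical
  obtain ⟨δ', hδ'⟩ : ∃ δ' : ℝ, δ' = δ / ((κ : ℝ) ^ 2 + 1) := ⟨_, rfl⟩
  have hδ0 : 0 < δ' := by rw [hδ']; positivity
  obtain ⟨C, hC, hdiv⟩ := divisor_bound δ' hδ0
  refine ⟨(C * (2 ^ (κ + 1)) ^ δ') ^ κ, by positivity, fun b N hN => ?_⟩
  have hN0 : (0 : ℝ) < N := by exact_mod_cast hN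
  have hN1 : (1 : ℝ) ≤ N := by exact_mod_cast hN
  set Q : ℝ := (C * (2 ^ (κ + 1)) ^ δ') ^ κ * (N : ℝ) ^ δ with hQ
  have hr : ∀ μ ∈ Ico (N ^ κ) (2 ^ (κ + 1) * N ^ κ),
      ((((FF κ N).filter (fun n => ∏ i, n i = μ)).card : ℕ) : ℝ) ≤ Q := by
    intro μ hμ
    rw [mem_Ico] at hμ
    have hNk : 0 < N ^ κ := by positivity
    have hμ0 : μ ≠ 0 := by omega
    have h1 : ((((FF κ N).filter (fun n => ∏ i, n i = μ)).card : ℕ) : ℝ) ≤ (μ.divisors.card : ℝ) ^ κ := by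
      exact_mod_cast fib_le κ N μ hμ0
    have h2 : (μ : ℝ) ≤ 2 ^ (κ + 1) * (N : ℝ) ^ κ := by exact_mod_cast hμ.2.le
    have h3 : (μ.divisors.card : ℝ) ≤ (C * (2 ^ (κ + 1)) ^ δ') * ((N : ℝ) ^ κ) ^ δ' := by
      refine (hdiv μ hμ0).trans ?_
      rw [mul_assoc, ← Real.mul_rpow (by positivity) (by positivity)]
      apply mul_le_mul_of_nonneg_left _ hC.le
      exact Real.rpow_le_rpow (by positivity) h2 hδ0.le
    have h4 : (μ.divisors.card : ℝ) ^ κ ≤ (C * (2 ^ (κ + 1)) ^ δ') ^ κ * (((N : ℝ) ^ κ) ^ δ') ^ κ := by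
      rw [← mul_pow]
      exact pow_le_pow_left₀ (by positivity) h3 κ
    have h5 : (((N : ℝ) ^ κ) ^ δ') ^ κ ≤ (N : ℝ) ^ δ := by
      rw [← Real.rpow_natCast, ← Real.rpow_natCast, ← Real.rpow_mul hN0.le, ← Real.rpow_mul hN0.le]
      apply Real.rpow_le_rpow_of_exponent_le hN1
      rw [hδ']
      have h6 : (κ : ℝ) * (δ / ((κ : ℝ) ^ 2 + 1)) * κ = δ * ((κ : ℝ) ^ 2 / ((κ : ℝ) ^ 2 + 1)) := by
        field_simp
      rw [h6]
      have h7 : (κ : ℝ) ^ 2 / ((κ : ℝ) ^ 2 + 1) ≤ 1 := by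
        rw [div_le_one (by positivity)]
        linarith
      nlinarith
    rw [hQ]
    refine h1.trans (h4.trans ?_)
    exact mul_le_mul_of_nonneg_left h5 (by positivity)
  have hQ0 : 0 ≤ Q := by rw [hQ]; positivity
  have h1 : ∀ μ ∈ Ico (N ^ κ) (2 ^ (κ + 1) * N ^ κ), ‖BB b κ N μ‖ ^ 2 ≤
      Q * ∑ n ∈ (FF κ N).filter (fun n => ∏ i, n i = μ), ∏ i, ‖b (n i)‖ ^ 2 := by
    intro μ hμ
    have h3 := hr μ hμ
    have h4 : ‖BB b κ N μ‖ ≤ ∑ n ∈ (FF κ N).filter (fun n => ∏ i, n i = μ), ∏ i, ‖b (n i)‖ := by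
      unfold BB
      refine (norm_sum_le _ _).trans (le_of_eq ?_)
      apply sum_congr (by congr)
      intro n _
      exact norm_prod _ _
    have h5 := sq_sum_le_card_mul_sum_sq (s := (FF κ N).filter (fun n => ∏ i, n i = μ))
      (f := fun n => ∏ i, ‖b (n i)‖)
    have h6 : ∑ n ∈ (FF κ N).filter (fun n => ∏ i, n i = μ), (∏ i, ‖b (n i)‖) ^ 2 =
        ∑ n ∈ (FF κ N).filter (fun n => ∏ i, n i = μ), ∏ i, ‖b (n i)‖ ^ 2 := by
      apply sum_congr rfl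
      intro n _
      rw [← prod_pow]
    rw [h6] at h5
    calc ‖BB b κ N μ‖ ^ 2 ≤ (∑ n ∈ (FF κ N).filter (fun n => ∏ i, n i = μ), ∏ i, ‖b (n i)‖) ^ 2 :=
          pow_le_pow_left₀ (norm_nonneg _) h4 2
      _ ≤ _ := h5
      _ ≤ _ := mul_le_mul_of_nonneg_right h3 (sum_nonneg fun n _ => prod_nonneg fun i _ => by positivity)
  refine (sum_le_sum h1).trans ?_
  rw [← mul_sum, sum_fiberwise_of_maps_to (fun n hn => prod_mem κ N n hN hn)]
  have h2 : ∑ n ∈ FF κ N, ∏ i, ‖b (n i)‖ ^ 2 = sq b N ^ κ := by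
    unfold FF sq
    rw [← prod_univ_sum (fun _ : Fin κ => Icc N (2 * N)) (fun _ n => ‖b n‖ ^ 2)]
    rw [prod_const, card_univ, Fintype.card_fin]
  rw [h2]

/-- the `2 κ`-th moment over `T ≥ N^κ` times -/
theorem mo (κ : ℕ) (η : ℝ) (hη : 0 < η) : ∃ C : ℝ, 0 < C ∧ ∀ (b : ℕ → ℂ) (N T : ℕ), 1 ≤ N →
    N ^ κ ≤ T → ∑ t ∈ Icc 1 T, ‖DS b N t‖ ^ (2 * κ) ≤ C * (N : ℝ) ^ η * T * sq b N ^ κ := by
  obtain ⟨C1, hC1, hB⟩ := BB_sq2 κ (η / 2) (by positivity)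
  have hpi := Real.pi_pos
  set c2 : ℝ := 1 + (κ + 1) + κ * (2 / η) with hc2
  have hc20 : 0 < c2 := by rw [hc2]; positivity
  refine ⟨(κ + 1) * (1 + 4 * Real.pi * 2 ^ (κ + 1)) * c2 * C1, by positivity, fun b N T hN hT => ?_⟩
  have hN0 : (0 : ℝ) < N := by exact_mod_cast hN
  have hN1 : (1 : ℝ) ≤ N := by exact_mod_cast hN
  set P : ℝ := 2 ^ (κ + 1) * (N : ℝ) ^ κ with hP
  have hNk : (1 : ℝ) ≤ (N : ℝ) ^ κ := one_le_pow₀ hN1
  have hP1 : 1 ≤ P := by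
    have : (1 : ℝ) ≤ 2 ^ (κ + 1) := one_le_pow₀ (by norm_num)
    rw [hP]
    nlinarith
  have hlogP0 : 0 ≤ Real.log P := Real.log_nonneg hP1
  have hNe : (1 : ℝ) ≤ (N : ℝ) ^ (η / 2) := Real.one_le_rpow hN1 (by positivity)
  have hlogP : 1 + Real.log P ≤ c2 * (N : ℝ) ^ (η / 2) := by
    have h1 : Real.log P = (κ + 1) * Real.log 2 + κ * Real.log N := by
      rw [hP, Real.log_mul (by positivity) (by positivity), Real.log_pow, Real.log_pow]
      push_cast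
      ring
    have h2 : Real.log 2 ≤ 1 := by
      have := Real.log_two_lt_d9
      linarith
    have h3 : Real.log N ≤ (N : ℝ) ^ (η / 2) / (η / 2) :=
      Real.log_le_rpow_div hN0.le (by positivity)
    have h4 : (N : ℝ) ^ (η / 2) / (η / 2) = 2 / η * (N : ℝ) ^ (η / 2) := by field_simp
    rw [h4] at h3
    have h5 : (κ : ℝ) * Real.log N ≤ κ * (2 / η * (N : ℝ) ^ (η / 2)) :=
      mul_le_mul_of_nonneg_left h3 (Nat.cast_nonneg κ)
    have h6 : ((κ : ℝ) + 1) * Real.log 2 ≤ (κ + 1) * 1 :=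
      mul_le_mul_of_nonneg_left h2 (by positivity)
    have h7 : (1 + ((κ : ℝ) + 1)) * 1 ≤ (1 + ((κ : ℝ) + 1)) * (N : ℝ) ^ (η / 2) :=
      mul_le_mul_of_nonneg_left hNe (by positivity)
    rw [h1, hc2]
    calc 1 + (((κ : ℝ) + 1) * Real.log 2 + κ * Real.log N)
        ≤ (1 + ((κ : ℝ) + 1)) * 1 + κ * (2 / η * (N : ℝ) ^ (η / 2)) := by linarith
      _ ≤ (1 + ((κ : ℝ) + 1)) * (N : ℝ) ^ (η / 2) + κ * (2 / η * (N : ℝ) ^ (η / 2)) := by linarith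
      _ = _ := by ring
  have h1 := range_mv (κ + 1) (N ^ κ) T (Nat.one_le_pow _ _ hN) (fun μ => BB b κ N μ)
  have h2 : ∀ t, ‖∑ μ ∈ Ico (N ^ κ) (2 ^ (κ + 1) * N ^ κ), BB b κ N μ * ex1 t μ‖ ^ 2 =
      ‖DS b N t‖ ^ (2 * κ) := by
    intro t
    have := power b κ N t hN
    unfold ex1
    rw [← this, norm_pow, ← pow_mul, mul_comm]
  simp only [h2] at h1
  refine h1.trans ?_
  push_cast
  rw [← hP]
  have h3 := hB b N hN
  have hT' : (N : ℝ) ^ κ ≤ T := by exact_mod_cast hT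
  have h4 : ((κ : ℝ) + 1) * (T + 4 * Real.pi * P * (1 + Real.log P)) ≤
      (κ + 1) * (1 + 4 * Real.pi * 2 ^ (κ + 1)) * c2 * (N : ℝ) ^ (η / 2) * T := by
    have h5 : P ≤ 2 ^ (κ + 1) * T := by
      rw [hP]
      exact mul_le_mul_of_nonneg_left hT' (by positivity)
    have h6 : T + 4 * Real.pi * P * (1 + Real.log P) ≤
        (1 + 4 * Real.pi * 2 ^ (κ + 1)) * (1 + Real.log P) * T := by
      have h7 : 4 * Real.pi * P * (1 + Real.log P) ≤ 4 * Real.pi * (2 ^ (κ + 1) * T) * (1 + Real.log P) := by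
        apply mul_le_mul_of_nonneg_right _ (by linarith)
        exact mul_le_mul_of_nonneg_left h5 (by positivity)
      have h8 : 0 ≤ Real.log P * T := by positivity
      nlinarith
    calc ((κ : ℝ) + 1) * (T + 4 * Real.pi * P * (1 + Real.log P))
        ≤ (κ + 1) * ((1 + 4 * Real.pi * 2 ^ (κ + 1)) * (1 + Real.log P) * T) :=
          mul_le_mul_of_nonneg_left h6 (by positivity)
      _ ≤ (κ + 1) * ((1 + 4 * Real.pi * 2 ^ (κ + 1)) * (c2 * (N : ℝ) ^ (η / 2)) * T) := by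
          apply mul_le_mul_of_nonneg_left _ (by positivity)
          apply mul_le_mul_of_nonneg_right _ (Nat.cast_nonneg T)
          exact mul_le_mul_of_nonneg_left hlogP (by positivity)
      _ = _ := by ring
  have h5 : 0 ≤ ∑ μ ∈ Ico (N ^ κ) (2 ^ (κ + 1) * N ^ κ), ‖BB b κ N μ‖ ^ 2 :=
    sum_nonneg fun _ _ => by positivity
  calc ((κ : ℝ) + 1) * (T + 4 * Real.pi * P * (1 + Real.log P)) *
        ∑ μ ∈ Ico (N ^ κ) (2 ^ (κ + 1) * N ^ κ), ‖BB b κ N μ‖ ^ 2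
      ≤ ((κ + 1) * (1 + 4 * Real.pi * 2 ^ (κ + 1)) * c2 * (N : ℝ) ^ (η / 2) * T) *
        (C1 * (N : ℝ) ^ (η / 2) * sq b N ^ κ) :=
        mul_le_mul h4 h3 h5 (by positivity)
    _ = (κ + 1) * (1 + 4 * Real.pi * 2 ^ (κ + 1)) * c2 * C1 *
        ((N : ℝ) ^ (η / 2) * (N : ℝ) ^ (η / 2)) * T * sq b N ^ κ := by ring
    _ = _ := by
        rw [← Real.rpow_add hN0]
        congr 4
        ring

open Classical in
/-- the number of times at which the polynomial is large -/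
theorem tail (κ : ℕ) (η : ℝ) (hη : 0 < η) : ∃ C : ℝ, 0 < C ∧ ∀ (b : ℕ → ℂ) (N T : ℕ) (l : ℝ), 1 ≤ N →
    N ^ κ ≤ T → 0 < l →
    ((((Icc 1 T).filter (fun t => l * Real.sqrt (sq b N) < ‖DS b N t‖)).card : ℕ) : ℝ) ≤
      C * (N : ℝ) ^ η * (l ^ (2 * κ))⁻¹ * T := by
  obtain ⟨C, hC, h⟩ := mo κ η hη
  refine ⟨C, hC, fun b N T l hN hT hl => ?_⟩
  have h1 := h b N T hN hT
  have hs := sq_nonneg' b N
  rcases hs.eq_or_lt with h0 | h0
  · -- the polynomial is zero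
    have hb : ∀ n ∈ Icc N (2 * N), b n = 0 := by
      intro n hn
      have := (sum_eq_zero_iff_of_nonneg (fun n _ => by positivity)).1 h0.symm n hn
      simpa using this
    have hD : ∀ t, DS b N t = 0 := by
      intro t
      unfold DS
      apply sum_eq_zero
      intro n hn
      rw [hb n hn, zero_mul]
    have : ((Icc 1 T).filter (fun t => l * Real.sqrt (sq b N) < ‖DS b N t‖)) = ∅ := by
      apply filter_eq_empty_iff.2
      intro t _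
      rw [hD, norm_zero, ← h0, Real.sqrt_zero, mul_zero]
      exact lt_irrefl _
    rw [this, card_empty, Nat.cast_zero]
    positivity
  · have h2 : ∀ t ∈ (Icc 1 T).filter (fun t => l * Real.sqrt (sq b N) < ‖DS b N t‖),
        l ^ (2 * κ) * sq b N ^ κ ≤ ‖DS b N t‖ ^ (2 * κ) := by
      intro t ht
      have h3 := (mem_filter.1 ht).2
      calc l ^ (2 * κ) * sq b N ^ κ = (l * Real.sqrt (sq b N)) ^ (2 * κ) := by
            rw [mul_pow, pow_mul (Real.sqrt (sq b N)), Real.sq_sqrt hs]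
        _ ≤ _ := pow_le_pow_left₀ (by positivity) h3.le _
    have h4 := card_nsmul_le_sum _ _ _ h2
    rw [nsmul_eq_mul] at h4
    have h5 : ∑ t ∈ (Icc 1 T).filter (fun t => l * Real.sqrt (sq b N) < ‖DS b N t‖), ‖DS b N t‖ ^ (2 * κ) ≤
        ∑ t ∈ Icc 1 T, ‖DS b N t‖ ^ (2 * κ) :=
      sum_le_sum_of_subset_of_nonneg (filter_subset _ _) fun t _ _ => by positivity
    have h6 := h4.trans (h5.trans h1)
    have hsk : 0 < sq b N ^ κ := by positivity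
    have hlk : 0 < l ^ (2 * κ) := by positivity
    have h7 : (((Icc 1 T).filter (fun t => l * Real.sqrt (sq b N) < ‖DS b N t‖)).card : ℝ) * l ^ (2 * κ) ≤
        C * (N : ℝ) ^ η * T := by
      apply le_of_mul_le_mul_right _ hsk
      linarith
    rw [← le_div_iff₀ hlk] at h7
    refine h7.trans (le_of_eq ?_)
    field_simp

end Pool.Agent.T6.H1.Rt
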