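import Pool.Agent.T6.H1.Tw.Geo

/-! The mean value theorem for Dirichlet polynomials at the integers, on ranges `[a, 2^k a)`. -/

set_option autoImplicit false

namespace Pool.Agent.T6.H1.Rt

open Finset Pool.Agent.T6.H1.Tw

/-- `e^(i t log μ)` -/
noncomputable def ex1 (t : ℕ) (μ : ℕ) : ℂ := Complex.exp (Complex.I * t * Real.log μ)

lemma norm_ex1 (t μ : ℕ) : ‖ex1 t μ‖ = 1 := by
  unfold ex1
  rw [show Complex.I * t * Real.log μ = ((t * Real.log μ : ℝ) : ℂ) * Complex.I by push_cast; ring]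
  exact Complex.norm_exp_ofReal_mul_I _

lemma schur (S : Finset ℕ) (T : ℕ) (c : ℕ → ℂ) (B : ℝ)
    (hB : ∀ μ ∈ S, ∑ ν ∈ S, W T (Real.log μ - Real.log ν) ≤ B) :
    ∑ t ∈ Icc 1 T, ‖∑ μ ∈ S, c μ * ex1 t μ‖ ^ 2 ≤ B * ∑ μ ∈ S, ‖c μ‖ ^ 2 := by
  have h1 : ((∑ t ∈ Icc 1 T, ‖∑ μ ∈ S, c μ * ex1 t μ‖ ^ 2 : ℝ) : ℂ) =
      ∑ μ ∈ S, ∑ ν ∈ S, c μ * (starRingEnd ℂ) (c ν) *
        ∑ t ∈ Icc 1 T, Complex.exp (Complex.I * t * ((Real.log μ - Real.log ν : ℝ) : ℂ)) := by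
    rw [Complex.ofReal_sum]
    have h2 : ∀ t ∈ Icc 1 T, ((‖∑ μ ∈ S, c μ * ex1 t μ‖ ^ 2 : ℝ) : ℂ) =
        ∑ μ ∈ S, ∑ ν ∈ S, c μ * (starRingEnd ℂ) (c ν) *
          Complex.exp (Complex.I * t * ((Real.log μ - Real.log ν : ℝ) : ℂ)) := by
      intro t _
      rw [← Complex.normSq_eq_norm_sq, Complex.normSq_eq_conj_mul_self, mul_comm, map_sum, sum_mul_sum]
      apply sum_congr rfl
      intro μ _
      apply sum_congr rfl
      intro ν _
      rw [map_mul]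
      have h3 : (starRingEnd ℂ) (ex1 t ν) = Complex.exp (-(Complex.I * t * Real.log ν)) := by
        unfold ex1
        rw [← Complex.exp_conj]
        congr 1
        rw [map_mul, map_mul, Complex.conj_I, Complex.conj_ofReal, Complex.conj_natCast]
        ring
      rw [h3]
      have h4 : Complex.exp (Complex.I * t * ((Real.log μ - Real.log ν : ℝ) : ℂ)) =
          ex1 t μ * Complex.exp (-(Complex.I * t * Real.log ν)) := by
        unfold ex1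
        rw [← Complex.exp_add]
        congr 1
        push_cast
        ring
      rw [h4]
      ring
    rw [sum_congr rfl h2, sum_comm]
    apply sum_congr rfl
    intro μ _
    rw [sum_comm]
    apply sum_congr rfl
    intro ν _
    rw [mul_sum]
  have hnn : 0 ≤ ∑ t ∈ Icc 1 T, ‖∑ μ ∈ S, c μ * ex1 t μ‖ ^ 2 := sum_nonneg fun t _ => by positivity
  have hsymm : ∀ μ ν : ℕ, W T (Real.log μ - Real.log ν) = W T (Real.log ν - Real.log μ) := by
    intro μ ν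
    unfold W
    rw [← Complex.norm_conj, map_sum]
    congr 1
    apply sum_congr rfl
    intro t _
    rw [← Complex.exp_conj]
    congr 1
    rw [map_mul, map_mul, Complex.conj_I, Complex.conj_ofReal, Complex.conj_natCast]
    push_cast
    ring
  rw [← Real.norm_of_nonneg hnn, ← Complex.norm_real, h1]
  have h5 : ‖∑ μ ∈ S, ∑ ν ∈ S, c μ * (starRingEnd ℂ) (c ν) *
        ∑ t ∈ Icc 1 T, Complex.exp (Complex.I * t * ((Real.log μ - Real.log ν : ℝ) : ℂ))‖ ≤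
      ∑ μ ∈ S, ∑ ν ∈ S, ((‖c μ‖ ^ 2 + ‖c ν‖ ^ 2) / 2) * W T (Real.log μ - Real.log ν) := by
    refine (norm_sum_le _ _).trans (sum_le_sum fun μ _ => ?_)
    refine (norm_sum_le _ _).trans (sum_le_sum fun ν _ => ?_)
    rw [norm_mul, norm_mul, RCLike.norm_conj]
    apply mul_le_mul_of_nonneg_right _ (norm_nonneg _)
    nlinarith [sq_nonneg (‖c μ‖ - ‖c ν‖)]
  refine h5.trans ?_
  have h6 : ∑ μ ∈ S, ∑ ν ∈ S, ((‖c μ‖ ^ 2 + ‖c ν‖ ^ 2) / 2) * W T (Real.log μ - Real.log ν) =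
      ∑ μ ∈ S, ‖c μ‖ ^ 2 * ∑ ν ∈ S, W T (Real.log μ - Real.log ν) := by
    have e1 : ∑ μ ∈ S, ∑ ν ∈ S, (‖c ν‖ ^ 2 / 2) * W T (Real.log μ - Real.log ν) =
        ∑ μ ∈ S, ∑ ν ∈ S, (‖c μ‖ ^ 2 / 2) * W T (Real.log μ - Real.log ν) := by
      rw [sum_comm]
      apply sum_congr rfl
      intro μ _
      apply sum_congr rfl
      intro ν _
      rw [hsymm]
    have e2 : ∀ μ ν : ℕ, ((‖c μ‖ ^ 2 + ‖c ν‖ ^ 2) / 2) * W T (Real.log μ - Real.log ν) =
        (‖c μ‖ ^ 2 / 2) * W T (Real.log μ - Real.log ν) +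
        (‖c ν‖ ^ 2 / 2) * W T (Real.log μ - Real.log ν) := by
      intro μ ν
      ring
    simp only [e2, sum_add_distrib]
    rw [e1, ← sum_add_distrib]
    apply sum_congr rfl
    intro μ _
    rw [← mul_sum]
    ring
  rw [h6, mul_sum]
  apply sum_le_sum
  intro μ hμ
  rw [mul_comm]
  exact mul_le_mul_of_nonneg_right (hB μ hμ) (by positivity)

lemma block (a L T : ℕ) (hL : 1 ≤ L) (hLa : L ≤ a) (c : ℕ → ℂ) :
    ∑ t ∈ Icc 1 T, ‖∑ μ ∈ Ico a (a + L), c μ * ex1 t μ‖ ^ 2 ≤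
      (T + 4 * Real.pi * a * (1 + Real.log L)) * ∑ μ ∈ Ico a (a + L), ‖c μ‖ ^ 2 := by
  apply schur
  intro μ hμ
  have hpi := Real.pi_pos
  have h1 : ∑ ν ∈ Ico a (a + L), W T (Real.log μ - Real.log ν) =
      W T 0 + ∑ ν ∈ (Ico a (a + L)).filter (fun ν => ν ≠ μ), W T (Real.log μ - Real.log ν) := by
    rw [← sum_filter_add_sum_filter_not _ (fun ν => ν = μ)]
    congr 1
    rw [filter_eq' (Ico a (a + L)) μ, if_pos hμ, sum_singleton, sub_self]
  have hμ' := mem_Ico.1 hμ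
  have h2 : ∀ ν ∈ (Ico a (a + L)).filter (fun ν => ν ≠ μ), W T (Real.log μ - Real.log ν) ≤
      2 * Real.pi * a * (1 / |(μ : ℝ) - ν|) := by
    intro ν hν
    rw [mem_filter, mem_Ico] at hν
    obtain ⟨⟨hν1, hν2⟩, hν3⟩ := hν
    have a1 : (a : ℝ) ≤ μ := by exact_mod_cast hμ'.1
    have a2 : (μ : ℝ) ≤ a + L := by exact_mod_cast hμ'.2.le
    have a3 : (a : ℝ) ≤ ν := by exact_mod_cast hν1
    have a4 : (ν : ℝ) ≤ a + L := by exact_mod_cast hν2.le
    have a5 : (L : ℝ) ≤ a := by exact_mod_cast hLa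
    have a6 : (0 : ℝ) < a := by exact_mod_cast (by omega : 0 < a)
    have a7 : |(μ : ℝ) - ν| ≤ a := by
      rw [abs_le]
      constructor <;> linarith
    have h3 := log_diff (μ : ℝ) (ν : ℝ) (2 * a) (by linarith) (by linarith) (by linarith)
      (by linarith) (by
        intro h
        apply hν3
        exact_mod_cast h.symm) (by linarith) (by linarith) T
    refine h3.trans (le_of_eq ?_)
    ring
  rw [h1]
  apply add_le_add (W_le T 0)
  refine (sum_le_sum h2).trans ?_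
  rw [← mul_sum]
  have h3 := block_sum a L hL μ hμ
  calc 2 * Real.pi * a * ∑ ν ∈ (Ico a (a + L)).filter (fun ν => ν ≠ μ), (1 : ℝ) / |(μ : ℝ) - ν|
      ≤ 2 * Real.pi * a * (2 * (1 + Real.log L)) := mul_le_mul_of_nonneg_left h3 (by positivity)
    _ = 4 * Real.pi * a * (1 + Real.log L) := by ring

theorem range_mv (k a T : ℕ) (ha : 1 ≤ a) (c : ℕ → ℂ) :
    ∑ t ∈ Icc 1 T, ‖∑ μ ∈ Ico a (2 ^ k * a), c μ * ex1 t μ‖ ^ 2 ≤
      k * (T + 4 * Real.pi * (2 ^ k * a) * (1 + Real.log (2 ^ k * a))) *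
        ∑ μ ∈ Ico a (2 ^ k * a), ‖c μ‖ ^ 2 := by
  have hpi := Real.pi_pos
  have hsplit : ∀ (k : ℕ) {M : Type} [AddCommMonoid M] (f : ℕ → M),
      ∑ μ ∈ Ico a (2 ^ k * a), f μ = ∑ i ∈ range k, ∑ μ ∈ Ico (2 ^ i * a) (2 ^ i * a + 2 ^ i * a), f μ := by
    intro k M _ f
    induction k with
    | zero => simp
    | succ k ih =>
      rw [sum_range_succ, ← ih]
      have e : 2 ^ (k + 1) * a = 2 ^ k * a + 2 ^ k * a := by rw [pow_succ]; ring
      rw [e]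
      have : a ≤ 2 ^ k * a := Nat.le_mul_of_pos_left a (by positivity)
      exact (sum_Ico_consecutive f this (by omega)).symm
  set P : ℝ := 2 ^ k * a with hP
  have ha' : (1 : ℝ) ≤ a := by exact_mod_cast ha
  have hP1 : 1 ≤ P := by
    have : (1 : ℝ) ≤ 2 ^ k := one_le_pow₀ (by norm_num)
    rw [hP]
    nlinarith
  have hlogP : 0 ≤ Real.log P := Real.log_nonneg hP1
  have h1 : ∀ t ∈ Icc 1 T, ‖∑ μ ∈ Ico a (2 ^ k * a), c μ * ex1 t μ‖ ^ 2 ≤
      k * ∑ i ∈ range k, ‖∑ μ ∈ Ico (2 ^ i * a) (2 ^ i * a + 2 ^ i * a), c μ * ex1 t μ‖ ^ 2 := by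
    intro t _
    rw [hsplit k]
    have h2 : ‖∑ i ∈ range k, ∑ μ ∈ Ico (2 ^ i * a) (2 ^ i * a + 2 ^ i * a), c μ * ex1 t μ‖ ^ 2 ≤
        (∑ i ∈ range k, ‖∑ μ ∈ Ico (2 ^ i * a) (2 ^ i * a + 2 ^ i * a), c μ * ex1 t μ‖) ^ 2 :=
      pow_le_pow_left₀ (norm_nonneg _) (norm_sum_le _ _) 2
    refine h2.trans ?_
    have h3 := sq_sum_le_card_mul_sum_sq (s := range k)
      (f := fun i => ‖∑ μ ∈ Ico (2 ^ i * a) (2 ^ i * a + 2 ^ i * a), c μ * ex1 t μ‖)
    rwa [card_range] at h3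
  refine (sum_le_sum h1).trans ?_
  rw [← mul_sum, sum_comm, mul_assoc]
  apply mul_le_mul_of_nonneg_left _ (Nat.cast_nonneg k)
  rw [hsplit k, mul_sum]
  apply sum_le_sum
  intro i hi
  have hi' : i ≤ k := (mem_range.1 hi).le
  have hia : 1 ≤ 2 ^ i * a := by
    have : 0 < 2 ^ i * a := by positivity
    omega
  refine (block (2 ^ i * a) (2 ^ i * a) T hia le_rfl c).trans ?_
  apply mul_le_mul_of_nonneg_right _ (sum_nonneg fun μ _ => by positivity)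
  have h4 : (((2 ^ i * a : ℕ)) : ℝ) ≤ P := by
    rw [hP]
    push_cast
    apply mul_le_mul_of_nonneg_right _ (by positivity)
    exact pow_le_pow_right₀ (by norm_num) hi'
  have h5 : (0 : ℝ) < ((2 ^ i * a : ℕ) : ℝ) := by exact_mod_cast hia
  have h6 : Real.log ((2 ^ i * a : ℕ) : ℝ) ≤ Real.log P := Real.log_le_log h5 h4
  have h7 : 0 ≤ Real.log ((2 ^ i * a : ℕ) : ℝ) := Real.log_natCast_nonneg _
  have h8 : 4 * Real.pi * ((2 ^ i * a : ℕ) : ℝ) * (1 + Real.log ((2 ^ i * a : ℕ) : ℝ)) ≤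
      4 * Real.pi * P * (1 + Real.log P) := by
    apply mul_le_mul _ (by linarith) (by linarith) (by positivity)
    exact mul_le_mul_of_nonneg_left h4 (by positivity)
  linarith

end Pool.Agent.T6.H1.Rt
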