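import Pool.Agent.T6.H1.Rt.Ch
import Pool.Agent.T6.H1.Rt.Mv
import Pool.Agent.T6.H1.Rt.Dv

/-! The `2 κ`-th moment over random sample times, for all coefficients at once. -/

set_option autoImplicit false

namespace Pool.Agent.T6.H1.Rt

open Finset
open scoped InnerProductSpace

/-- the length of the range -/
def len (κ N : ℕ) : ℕ := 2 ^ (κ + 1) * N ^ κ - N ^ κ

/-- the vector of the time `t` -/
noncomputable def uu (κ N t : ℕ) : EuclideanSpace ℂ (Fin (len κ N)) :=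
  WithLp.toLp 2 (fun i => (starRingEnd ℂ) (ex1 t (N ^ κ + i)))

lemma uu_inner (κ N t : ℕ) (v : EuclideanSpace ℂ (Fin (len κ N))) :
    ⟪uu κ N t, v⟫_ℂ = ∑ i, v i * ex1 t (N ^ κ + i) := by
  rw [PiLp.inner_apply]
  apply sum_congr rfl
  intro i _
  rw [RCLike.inner_apply]
  unfold uu
  simp

lemma uu_norm (κ N t : ℕ) : ‖uu κ N t‖ ^ 2 = len κ N := by
  rw [EuclideanSpace.norm_sq_eq]
  unfold uu
  simp [norm_ex1]

lemma sum_rg {E : Type*} [AddCommMonoid E] (κ N : ℕ) (f : ℕ → E) :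
    ∑ μ ∈ Ico (N ^ κ) (2 ^ (κ + 1) * N ^ κ), f μ = ∑ i : Fin (len κ N), f (N ^ κ + i) := by
  rw [sum_Ico_eq_sum_range, sum_range]
  rfl

lemma frame (κ N T : ℕ) (hN : 1 ≤ N) (v : EuclideanSpace ℂ (Fin (len κ N))) :
    ∑ t ∈ Icc 1 T, ‖⟪uu κ N t, v⟫_ℂ‖ ^ 2 ≤
      ((κ + 1 : ℕ) : ℝ) * (T + 4 * Real.pi * (2 ^ (κ + 1) * (N : ℝ) ^ κ) *
        (1 + Real.log (2 ^ (κ + 1) * (N : ℝ) ^ κ))) * ‖v‖ ^ 2 := by
  set c : ℕ → ℂ := fun μ => if h : μ - N ^ κ < len κ N then v ⟨μ - N ^ κ, h⟩ else 0 with hc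
  have hc1 : ∀ i : Fin (len κ N), c (N ^ κ + i) = v i := by
    intro i
    rw [hc]
    dsimp only
    rw [dif_pos (by rw [Nat.add_sub_cancel_left]; exact i.2)]
    exact congrArg (fun k => v k) (Fin.ext (Nat.add_sub_cancel_left _ _))
  have h1 := range_mv (κ + 1) (N ^ κ) T (Nat.one_le_pow _ _ hN) c
  have h2 : ∀ t, ∑ μ ∈ Ico (N ^ κ) (2 ^ (κ + 1) * N ^ κ), c μ * ex1 t μ = ⟪uu κ N t, v⟫_ℂ := by
    intro t
    rw [sum_rg κ N, uu_inner]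
    simp only [hc1]
  have h3 : ∑ μ ∈ Ico (N ^ κ) (2 ^ (κ + 1) * N ^ κ), ‖c μ‖ ^ 2 = ‖v‖ ^ 2 := by
    rw [sum_rg κ N, EuclideanSpace.norm_sq_eq]
    simp only [hc1]
  simp only [h2, h3] at h1
  push_cast at h1 ⊢
  exact h1

/-- the coefficient vector -/
noncomputable def vB (b : ℕ → ℂ) (κ N : ℕ) : EuclideanSpace ℂ (Fin (len κ N)) :=
  WithLp.toLp 2 (fun i => BB b κ N (N ^ κ + i))

lemma inner_vB (b : ℕ → ℂ) (κ N t : ℕ) (hN : 1 ≤ N) : ⟪uu κ N t, vB b κ N⟫_ℂ = DS b N t ^ κ := by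
  rw [power b κ N t hN, sum_rg κ N, uu_inner]
  rfl

lemma norm_vB (b : ℕ → ℂ) (κ N : ℕ) :
    ‖vB b κ N‖ ^ 2 = ∑ μ ∈ Ico (N ^ κ) (2 ^ (κ + 1) * N ^ κ), ‖BB b κ N μ‖ ^ 2 := by
  rw [sum_rg κ N, EuclideanSpace.norm_sq_eq]
  rfl

open Classical in
theorem moment2 (κ : ℕ) (ε : ℝ) (hε : 0 < ε) : ∃ C : ℝ, 0 < C ∧ ∀ N m T : ℕ, 1 ≤ N → N ^ κ ≤ T →
    ((univ.filter (fun t : Fin m → Icc 1 T => ∃ b : ℕ → ℂ, (∀ n, ‖b n‖ ≤ 1) ∧
      C * (N : ℝ) ^ ε * ((N : ℝ) ^ (2 * κ) + m * (N : ℝ) ^ κ) <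
        ∑ j, ‖DS b N (t j : ℕ)‖ ^ (2 * κ))).card : ℝ) ≤
      Real.exp (-(N : ℝ) ^ (ε / 2)) * (T : ℝ) ^ m := by
  obtain ⟨C1, hC1, hB⟩ := BB_sq κ (ε / 4) (by positivity)
  have hpi := Real.pi_pos
  set c2 : ℝ := 1 + (κ + 1) + κ * (4 / ε) with hc2
  have hc20 : 0 < c2 := by rw [hc2]; positivity
  set c3 : ℝ := 2 * (κ + 1) * (1 + 4 * Real.pi * 2 ^ (κ + 1)) * c2 + 2 ^ (κ + 1) * (c2 + 1) with hc3
  have hc30 : 0 < c3 := by rw [hc3]; positivity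
  refine ⟨c3 * C1, by positivity, fun N m T hN hT => ?_⟩
  have hN0 : (0 : ℝ) < N := by exact_mod_cast hN
  have hN1 : (1 : ℝ) ≤ N := by exact_mod_cast hN
  have hT0 : (0 : ℝ) < T := by
    have h1 : 0 < N ^ κ := by positivity
    exact_mod_cast (h1.trans_le hT)
  set P : ℝ := 2 ^ (κ + 1) * (N : ℝ) ^ κ with hP
  have hNk : (1 : ℝ) ≤ (N : ℝ) ^ κ := one_le_pow₀ hN1
  have hP1 : 1 ≤ P := by
    have : (1 : ℝ) ≤ 2 ^ (κ + 1) := one_le_pow₀ (by norm_num)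
    rw [hP]
    nlinarith
  have hlogP0 : 0 ≤ Real.log P := Real.log_nonneg hP1
  have hNe : (1 : ℝ) ≤ (N : ℝ) ^ (ε / 4) := Real.one_le_rpow hN1 (by positivity)
  have hlogP : 1 + Real.log P ≤ c2 * (N : ℝ) ^ (ε / 4) := by
    have h1 : Real.log P = (κ + 1) * Real.log 2 + κ * Real.log N := by
      rw [hP, Real.log_mul (by positivity) (by positivity), Real.log_pow, Real.log_pow]
      push_cast
      ring
    have h2 : Real.log 2 ≤ 1 := by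
      have := Real.log_two_lt_d9
      linarith
    have h3 : Real.log N ≤ (N : ℝ) ^ (ε / 4) / (ε / 4) :=
      Real.log_le_rpow_div hN0.le (by positivity)
    have h4 : (N : ℝ) ^ (ε / 4) / (ε / 4) = 4 / ε * (N : ℝ) ^ (ε / 4) := by field_simp
    rw [h4] at h3
    have h5 : (κ : ℝ) * Real.log N ≤ κ * (4 / ε * (N : ℝ) ^ (ε / 4)) :=
      mul_le_mul_of_nonneg_left h3 (Nat.cast_nonneg κ)
    have h6 : ((κ : ℝ) + 1) * Real.log 2 ≤ (κ + 1) * 1 :=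
      mul_le_mul_of_nonneg_left h2 (by positivity)
    have h7 : (1 + ((κ : ℝ) + 1)) * 1 ≤ (1 + ((κ : ℝ) + 1)) * (N : ℝ) ^ (ε / 4) :=
      mul_le_mul_of_nonneg_left hNe (by positivity)
    rw [h1, hc2]
    calc 1 + (((κ : ℝ) + 1) * Real.log 2 + κ * Real.log N)
        ≤ (1 + ((κ : ℝ) + 1)) * 1 + κ * (4 / ε * (N : ℝ) ^ (ε / 4)) := by linarith
      _ ≤ (1 + ((κ : ℝ) + 1)) * (N : ℝ) ^ (ε / 4) + κ * (4 / ε * (N : ℝ) ^ (ε / 4)) := by linarith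
      _ = _ := by ring
  -- the length
  have hlen : ((len κ N : ℕ) : ℝ) ≤ P := by
    rw [hP]
    unfold len
    have : 2 ^ (κ + 1) * N ^ κ - N ^ κ ≤ 2 ^ (κ + 1) * N ^ κ := Nat.sub_le _ _
    exact_mod_cast this
  have hlen1 : 1 ≤ len κ N := by
    unfold len
    have h1 : 0 < N ^ κ := by positivity
    have h2 : 2 ≤ 2 ^ (κ + 1) := by
      calc 2 = 2 ^ 1 := (pow_one 2).symm
        _ ≤ 2 ^ (κ + 1) := Nat.pow_le_pow_right (by norm_num) (by omega)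
    have h3 : 2 * N ^ κ ≤ 2 ^ (κ + 1) * N ^ κ := Nat.mul_le_mul_right _ h2
    omega
  have hloglen : Real.log ((len κ N : ℕ) : ℝ) ≤ Real.log P :=
    Real.log_le_log (by exact_mod_cast hlen1) hlen
  -- the mean value
  set A : ℝ := (κ + 1) * (1 + 4 * Real.pi * 2 ^ (κ + 1) * (1 + Real.log P)) with hA
  have hA0 : 0 ≤ A := by rw [hA]; positivity
  have hmean : ∀ v : EuclideanSpace ℂ (Fin (len κ N)),
      ∑ t : Icc 1 T, ‖⟪uu κ N (t : ℕ), v⟫_ℂ‖ ^ 2 ≤ A * Fintype.card (Icc 1 T) * ‖v‖ ^ 2 := by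
    intro v
    have h1 := frame κ N T hN v
    rw [← hP] at h1
    have h2 : ∑ t : Icc 1 T, ‖⟪uu κ N (t : ℕ), v⟫_ℂ‖ ^ 2 = ∑ t ∈ Icc 1 T, ‖⟪uu κ N t, v⟫_ℂ‖ ^ 2 :=
      sum_coe_sort (Icc 1 T) (fun t => ‖⟪uu κ N t, v⟫_ℂ‖ ^ 2)
    rw [h2]
    refine h1.trans ?_
    apply mul_le_mul_of_nonneg_right _ (by positivity)
    have h3 : (Fintype.card (Icc 1 T) : ℝ) = T := by
      rw [Fintype.card_coe, Nat.card_Icc]
      simp
    rw [h3, hA]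
    push_cast
    have h4 : P ≤ 2 ^ (κ + 1) * T := by
      rw [hP]
      apply mul_le_mul_of_nonneg_left _ (by positivity)
      exact_mod_cast hT
    have h5 : 4 * Real.pi * P * (1 + Real.log P) ≤ 4 * Real.pi * (2 ^ (κ + 1) * T) * (1 + Real.log P) := by
      apply mul_le_mul_of_nonneg_right _ (by linarith)
      exact mul_le_mul_of_nonneg_left h4 (by positivity)
    calc ((κ : ℝ) + 1) * (T + 4 * Real.pi * P * (1 + Real.log P))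
        ≤ (κ + 1) * (T + 4 * Real.pi * (2 ^ (κ + 1) * T) * (1 + Real.log P)) :=
          mul_le_mul_of_nonneg_left (by linarith) (by positivity)
      _ = _ := by ring
  have hch := chernoff (ι := Icc 1 T) (fun t => uu κ N (t : ℕ)) P A (by linarith) hA0
    (fun t => by rw [uu_norm]; exact hlen) hmean m ((N : ℝ) ^ (ε / 2))
  have hcard : (Fintype.card (Icc 1 T) : ℝ) = T := by
    rw [Fintype.card_coe, Nat.card_Icc]
    simp
  rw [hcard] at hch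
  refine le_trans ?_ hch
  have hfin : Module.finrank ℂ (EuclideanSpace ℂ (Fin (len κ N))) = len κ N := by simp
  rw [hfin]
  have hmono : (univ.filter (fun t : Fin m → Icc 1 T => ∃ b : ℕ → ℂ, (∀ n, ‖b n‖ ≤ 1) ∧
      c3 * C1 * (N : ℝ) ^ ε * ((N : ℝ) ^ (2 * κ) + m * (N : ℝ) ^ κ) <
        ∑ j, ‖DS b N (t j : ℕ)‖ ^ (2 * κ))) ⊆
      (univ.filter (fun t : Fin m → Icc 1 T => ∃ v : EuclideanSpace ℂ (Fin (len κ N)),
        (2 * A * m + P * (Real.log ((len κ N : ℕ) : ℝ) + (N : ℝ) ^ (ε / 2))) * ‖v‖ ^ 2 <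
          ∑ j, ‖⟪uu κ N (t j : ℕ), v⟫_ℂ‖ ^ 2)) := by
    intro t ht
    rw [mem_filter] at ht ⊢
    refine ⟨mem_univ _, ?_⟩
    obtain ⟨-, b, hb, hlt⟩ := ht
    refine ⟨vB b κ N, ?_⟩
    have e1 : ∀ j, ‖⟪uu κ N (t j : ℕ), vB b κ N⟫_ℂ‖ ^ 2 = ‖DS b N (t j : ℕ)‖ ^ (2 * κ) := by
      intro j
      rw [inner_vB b κ N _ hN, norm_pow, ← pow_mul, mul_comm]
    simp only [e1]
    refine lt_of_le_of_lt ?_ hlt
    have h1 := hB b hb N hN
    rw [← norm_vB] at h1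
    have hN2 : (N : ℝ) ^ (ε / 4) ≤ (N : ℝ) ^ (ε / 2) :=
      Real.rpow_le_rpow_of_exponent_le hN1 (by linarith)
    have h2 : 2 * A * m + P * (Real.log ((len κ N : ℕ) : ℝ) + (N : ℝ) ^ (ε / 2)) ≤
        c3 * (N : ℝ) ^ (ε / 2) * (m + (N : ℝ) ^ κ) := by
      have g1 : A ≤ (κ + 1) * (1 + 4 * Real.pi * 2 ^ (κ + 1)) * c2 * (N : ℝ) ^ (ε / 2) := by
        rw [hA]
        have g2 : 1 + 4 * Real.pi * 2 ^ (κ + 1) * (1 + Real.log P) ≤
            (1 + 4 * Real.pi * 2 ^ (κ + 1)) * (1 + Real.log P) := by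
          nlinarith
        calc ((κ : ℝ) + 1) * (1 + 4 * Real.pi * 2 ^ (κ + 1) * (1 + Real.log P))
            ≤ (κ + 1) * ((1 + 4 * Real.pi * 2 ^ (κ + 1)) * (1 + Real.log P)) :=
              mul_le_mul_of_nonneg_left g2 (by positivity)
          _ ≤ (κ + 1) * ((1 + 4 * Real.pi * 2 ^ (κ + 1)) * (c2 * (N : ℝ) ^ (ε / 2))) := by
              apply mul_le_mul_of_nonneg_left _ (by positivity)
              apply mul_le_mul_of_nonneg_left _ (by positivity)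
              exact hlogP.trans (mul_le_mul_of_nonneg_left hN2 hc20.le)
          _ = _ := by ring
      have g3 : Real.log ((len κ N : ℕ) : ℝ) + (N : ℝ) ^ (ε / 2) ≤ (c2 + 1) * (N : ℝ) ^ (ε / 2) := by
        have : Real.log P ≤ c2 * (N : ℝ) ^ (ε / 2) := by
          have := hlogP.trans (mul_le_mul_of_nonneg_left hN2 hc20.le)
          linarith
        linarith
      have g4 : P * (Real.log ((len κ N : ℕ) : ℝ) + (N : ℝ) ^ (ε / 2)) ≤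
          P * ((c2 + 1) * (N : ℝ) ^ (ε / 2)) := mul_le_mul_of_nonneg_left g3 (by linarith)
      have g5 : 2 * A * m ≤ 2 * ((κ + 1) * (1 + 4 * Real.pi * 2 ^ (κ + 1)) * c2 * (N : ℝ) ^ (ε / 2)) * m := by
        apply mul_le_mul_of_nonneg_right _ (Nat.cast_nonneg m)
        linarith
      have g6 : 0 ≤ (2 ^ (κ + 1) * (c2 + 1)) * (N : ℝ) ^ (ε / 2) * m := by positivity
      have g7 : 0 ≤ (2 * (κ + 1) * (1 + 4 * Real.pi * 2 ^ (κ + 1)) * c2) * (N : ℝ) ^ (ε / 2) *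
          (N : ℝ) ^ κ := by positivity
      have g8 : c3 * (N : ℝ) ^ (ε / 2) * (m + (N : ℝ) ^ κ) =
          2 * ((κ + 1) * (1 + 4 * Real.pi * 2 ^ (κ + 1)) * c2 * (N : ℝ) ^ (ε / 2)) * m +
          (2 ^ (κ + 1) * (N : ℝ) ^ κ) * ((c2 + 1) * (N : ℝ) ^ (ε / 2)) +
          (2 ^ (κ + 1) * (c2 + 1)) * (N : ℝ) ^ (ε / 2) * m +
          (2 * (κ + 1) * (1 + 4 * Real.pi * 2 ^ (κ + 1)) * c2) * (N : ℝ) ^ (ε / 2) *
          (N : ℝ) ^ κ := by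
        rw [hc3]
        ring
      rw [g8, ← hP]
      linarith
    have h3 : 0 ≤ ‖vB b κ N‖ ^ 2 := by positivity
    calc (2 * A * m + P * (Real.log ((len κ N : ℕ) : ℝ) + (N : ℝ) ^ (ε / 2))) * ‖vB b κ N‖ ^ 2
        ≤ (c3 * (N : ℝ) ^ (ε / 2) * (m + (N : ℝ) ^ κ)) * (C1 * (N : ℝ) ^ (ε / 4) * (N : ℝ) ^ κ) :=
          mul_le_mul h2 h1 h3 (by positivity)
      _ = c3 * C1 * ((N : ℝ) ^ (ε / 2) * (N : ℝ) ^ (ε / 4)) * ((N : ℝ) ^ (2 * κ) + m * (N : ℝ) ^ κ) := by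
          rw [two_mul κ, pow_add]
          ring
      _ ≤ c3 * C1 * (N : ℝ) ^ ε * ((N : ℝ) ^ (2 * κ) + m * (N : ℝ) ^ κ) := by
          apply mul_le_mul_of_nonneg_right _ (by positivity)
          apply mul_le_mul_of_nonneg_left _ (by positivity)
          rw [← Real.rpow_add hN0]
          apply Real.rpow_le_rpow_of_exponent_le hN1
          linarith
  exact_mod_cast card_le_card hmono

end Pool.Agent.T6.H1.Rt
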